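import Mathlib

/-! The Levy collapse below the first universe height, its automorphisms and restrictions. -/

namespace Pool.Agent.MP_637f9c_lc.H1

open Set

/-- finite conditions: at coordinate `a` a finite approximation to a map from the naturals onto
the ordinals `≤ a` -/
@[ext] structure Cond : Type 1 where
  f : Ordinal.{0} × ℕ → Option Ordinal.{0}
  fin : {k | f k ≠ none}.Finite
  bd : ∀ k b, f k = some b → b ≤ k.1

namespace Cond

instance : PartialOrder Cond where
  le p q := ∀ k b, q.f k = some b → p.f k = some b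
  le_refl _ _ _ h := h
  le_trans _ _ _ h1 h2 k b h := h1 k b (h2 k b h)
  le_antisymm p q h1 h2 := by
    ext k b
    exact ⟨fun h => h2 k b h, fun h => h1 k b h⟩

lemma le_def {p q : Cond} : p ≤ q ↔ ∀ k b, q.f k = some b → p.f k = some b := Iff.rfl

instance : OrderTop Cond where
  top := ⟨fun _ => none, by simp, by simp⟩
  le_top p k b h := by simp at h

/-- agreement on the common domain -/
def Agree (p q : Cond) : Prop := ∀ k b b', p.f k = some b → q.f k = some b' → b = b'

lemma Agree.exists_le {p q : Cond} (h : Agree p q) : ∃ r, r ≤ p ∧ r ≤ q := by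
  refine ⟨⟨fun k => (p.f k).or (q.f k), ?_, ?_⟩, ?_, ?_⟩
  · refine (p.fin.union q.fin).subset fun k hk => ?_
    by_contra hc
    simp only [mem_union, mem_ofPred_eq, not_or, not_not] at hc
    simp [hc.1, hc.2] at hk
  · intro k b hb
    cases hp : p.f k with
    | none => rw [hp] at hb; exact q.bd k b (by simpa using hb)
    | some c => rw [hp] at hb; simp at hb; exact hb ▸ p.bd k c hp
  · intro k b hb
    simp [hb]
  · intro k b hb
    cases hp : p.f k with
    | none => simp [hp, hb]
    | some c => simp [hp, h k c b hp hb]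

lemma agree_of_le {p q r : Cond} (h1 : r ≤ p) (h2 : r ≤ q) : Agree p q := by
  intro k b b' hb hb'
  have := h1 k b hb
  rw [h2 k b' hb'] at this
  exact (Option.some.inj this).symm

/-- restriction to the coordinates below `α` -/
noncomputable def res (p : Cond) (α : Ordinal.{0}) : Cond where
  f k := if k.1 < α then p.f k else none
  fin := p.fin.subset fun k hk => by
    by_cases h : k.1 < α <;> simp_all
  bd k b hb := by
    by_cases h : k.1 < α
    · exact p.bd k b (by simpa [h] using hb)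
    · simp [h] at hb

/-- the domain lies below `α` -/
def Below (α : Ordinal.{0}) (p : Cond) : Prop := ∀ k b, p.f k = some b → k.1 < α

lemma le_res (p : Cond) (α : Ordinal.{0}) : p ≤ p.res α := by
  intro k b hb
  by_cases h : k.1 < α
  · simpa [res, h] using hb
  · simp [res, h] at hb

lemma below_res (p : Cond) (α : Ordinal.{0}) : Below α (p.res α) := by
  intro k b hb
  by_contra h
  simp [res, h] at hb

lemma res_le {p q : Cond} {α : Ordinal.{0}} (h : q ≤ p) (hp : Below α p) : q.res α ≤ p := by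
  intro k b hb
  simp [res, hp k b hb, h k b hb]

lemma Below.mono {α β : Ordinal.{0}} {p : Cond} (h : Below α p) (hab : α ≤ β) : Below β p :=
  fun k b hb => (h k b hb).trans_le hab

lemma exists_below (p : Cond) : ∃ α, Below α p := by
  obtain ⟨a, ha⟩ := (p.fin.image Prod.fst).bddAbove
  refine ⟨a + 1, fun k b hb => ?_⟩
  have : k.1 ≤ a := ha ⟨k, by simp [hb], rfl⟩
  exact this.trans_lt (lt_add_one a)

lemma small_below (α : Ordinal.{0}) : Small.{0} {p : Cond // Below α p} := by
  classical
  let F : {p : Cond // Below α p} → (Iio α × ℕ → Set (Iio α)) :=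
    fun p k => {b | p.1.f (k.1.1, k.2) = some b.1}
  refine small_of_injective (f := F) fun p q h => ?_
  have key : ∀ p q : {p : Cond // Below α p}, F p = F q → q.1 ≤ p.1 := by
    intro p q h k b hb
    have h1 := p.2 k b hb
    have h2 : b < α := (p.1.bd k b hb).trans_lt h1
    have : (⟨b, h2⟩ : Iio α) ∈ F p (⟨k.1, h1⟩, k.2) := hb
    rw [h] at this
    exact this
  exact Subtype.ext (le_antisymm (key q p h.symm) (key p q h))

/-- extend a condition by one value -/
lemma exists_ext (p : Cond) (k : Ordinal.{0} × ℕ) (b : Ordinal.{0}) (hb : b ≤ k.1)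
    (hk : p.f k = none) : ∃ q, q ≤ p ∧ q.f k = some b := by
  classical
  let s : Cond := ⟨fun j => if j = k then some b else none,
    (finite_singleton k).subset fun j hj => by by_contra h; simp_all,
    fun j c hc => by
      by_cases h : j = k
      · simp [h] at hc; rw [h, ← hc]; exact hb
      · simp [h] at hc⟩
  have : Agree p s := by
    intro j c c' hc hc'
    by_cases h : j = k
    · rw [h, hk] at hc; simp at hc
    · simp [s, h] at hc'
  obtain ⟨r, h1, h2⟩ := this.exists_le
  exact ⟨r, h1, h2 k b (by simp [s])⟩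

lemma exists_fresh (p : Cond) : ∃ N : ℕ, ∀ k b, p.f k = some b → k.2 < N := by
  obtain ⟨a, ha⟩ := (p.fin.image Prod.snd).bddAbove
  exact ⟨a + 1, fun k b hb => Nat.lt_succ_of_le (ha ⟨k, by simp [hb], rfl⟩)⟩

end Cond

/-- the automorphism group: one permutation of the naturals for every coordinate -/
abbrev Grp : Type 1 := Ordinal.{0} → Equiv.Perm ℕ

namespace Cond

instance : SMul Grp Cond where
  smul g p := ⟨fun k => p.f (k.1, (g k.1)⁻¹ k.2),
    (p.fin.image fun k => (k.1, g k.1 k.2)).subset fun k hk => ⟨_, hk, by simp⟩,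
    fun k b hb => p.bd (k.1, (g k.1)⁻¹ k.2) b hb⟩

lemma smul_f (g : Grp) (p : Cond) (k : Ordinal.{0} × ℕ) :
    (g • p).f k = p.f (k.1, (g k.1)⁻¹ k.2) := rfl

instance : MulAction Grp Cond where
  one_smul p := by ext1; funext k; simp [smul_f]
  mul_smul g h p := by ext1; funext k; simp [smul_f]

lemma smul_le {p q : Cond} (g : Grp) (h : p ≤ q) : g • p ≤ g • q := fun _ b hb => h _ b hb

lemma smul_le_iff {p q : Cond} (g : Grp) : g • p ≤ g • q ↔ p ≤ q :=
  ⟨fun h => by simpa using smul_le g⁻¹ h, smul_le g⟩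

lemma le_smul_iff {p q : Cond} (g : Grp) : p ≤ g • q ↔ g⁻¹ • p ≤ q := by
  rw [← smul_le_iff g⁻¹]; simp

lemma smul_le_iff' {p q : Cond} (g : Grp) : g • p ≤ q ↔ p ≤ g⁻¹ • q := by
  rw [← smul_le_iff g⁻¹]; simp

@[simp] lemma smul_top (g : Grp) : g • (⊤ : Cond) = ⊤ := rfl

end Cond

/-- the automorphisms fixing all coordinates below `α` -/
def Fix (α : Ordinal.{0}) (g : Grp) : Prop := ∀ a, a < α → g a = 1

lemma Fix.mono {α β : Ordinal.{0}} {g : Grp} (h : Fix β g) (hab : α ≤ β) : Fix α g :=
  fun a ha => h a (ha.trans_le hab)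

lemma Fix.inv {α : Ordinal.{0}} {g : Grp} (h : Fix α g) : Fix α g⁻¹ :=
  fun a ha => by simp [h a ha]

lemma Fix.conj {α : Ordinal.{0}} {g : Grp} (h : Fix α g) (k : Grp) : Fix α (k⁻¹ * g * k) :=
  fun a ha => by simp [h a ha]

lemma homog (α : Ordinal.{0}) (p q : Cond) (h : q ≤ p.res α) :
    ∃ g, Fix α g ∧ ∃ r, r ≤ q ∧ r ≤ g • p := by
  classical
  obtain ⟨N1, h1⟩ := p.exists_fresh
  obtain ⟨N2, h2⟩ := q.exists_fresh
  set N := max N1 N2 with hN
  let s : ℕ → ℕ := fun n => if n < N then n + N else if n < 2 * N then n - N else n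
  have hs : Function.Involutive s := by
    intro n
    simp only [s]
    split_ifs <;> omega
  let σ : Equiv.Perm ℕ := hs.toPerm
  refine ⟨fun a => if a < α then 1 else σ, fun a ha => by simp [ha], ?_⟩
  apply Cond.Agree.exists_le
  intro k b b' hb hb'
  rw [Cond.smul_f] at hb'
  by_cases hk : k.1 < α
  · simp only [hk, if_true, inv_one, Equiv.Perm.coe_one, id] at hb'
    have := h k b' (by simpa [Cond.res, hk] using hb')
    rw [hb] at this
    exact Option.some.inj this
  · exfalso
    simp only [hk, if_false] at hb'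
    have e : σ⁻¹ k.2 = s k.2 := rfl
    have a1 := h1 _ _ hb'
    have a2 := h2 _ _ hb
    simp only [e, s] at a1
    split_ifs at a1 <;> omega

/-- every antichain of the collapse is small -/
lemma antichain_below (A : Set Cond)
    (hA : ∀ p ∈ A, ∀ q ∈ A, (∃ r, r ≤ p ∧ r ≤ q) → p = q) : ∃ α, ∀ p ∈ A, Cond.Below α p := by
  have step : ∀ α : Ordinal.{0}, ∃ β, α ≤ β ∧ ∀ r, Cond.Below α r →
      (∃ p ∈ A, Cond.Agree r p) → ∃ p ∈ A, Cond.Agree r p ∧ Cond.Below β p := by
    intro α
    have := Cond.small_below α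
    have h1 : ∀ r : {p : Cond // Cond.Below α p}, ∃ β, (∃ p ∈ A, Cond.Agree r.1 p) →
        ∃ p ∈ A, Cond.Agree r.1 p ∧ Cond.Below β p := by
      intro r
      by_cases h : ∃ p ∈ A, Cond.Agree r.1 p
      · obtain ⟨p, hp, hr⟩ := h
        obtain ⟨β, hβ⟩ := p.exists_below
        exact ⟨β, fun _ => ⟨p, hp, hr, hβ⟩⟩
      · exact ⟨0, fun h' => absurd h' h⟩
    choose b hb using h1
    obtain ⟨β, hβ⟩ := Ordinal.bddAbove_of_small (s := range b)
    refine ⟨max α β, le_max_left _ _, fun r hr h => ?_⟩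
    obtain ⟨p, hp, h1, h2⟩ := hb ⟨r, hr⟩ h
    exact ⟨p, hp, h1, h2.mono ((hβ ⟨_, rfl⟩).trans (le_max_right _ _))⟩
  choose F hF1 hF2 using step
  let a : ℕ → Ordinal.{0} := fun n => F^[n] 0
  have ha : ∀ n, a (n + 1) = F (a n) := fun n => Function.iterate_succ_apply' F n 0
  have hmono : Monotone a := monotone_nat_of_le_succ fun n => by rw [ha]; exact hF1 _
  have hb : BddAbove (range a) := Ordinal.bddAbove_of_small
  refine ⟨⨆ n, a n, fun p hp => ?_⟩
  set α := ⨆ n, a n with hα
  have hfin : ∃ n, Cond.Below (a n) (p.res α) := by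
    have h1 : ∀ k : Ordinal.{0} × ℕ, ∃ n, k.1 < α → k.1 < a n := by
      intro k
      by_cases h : k.1 < α
      · obtain ⟨n, hn⟩ := (lt_ciSup_iff hb).1 h
        exact ⟨n, fun _ => hn⟩
      · exact ⟨0, fun h' => absurd h' h⟩
    choose m hm using h1
    obtain ⟨n, hn⟩ := ((p.res α).fin.image m).bddAbove
    refine ⟨n, fun k b hk => ?_⟩
    exact (hm k (p.below_res α k b hk)).trans_le (hmono (hn ⟨k, by simp [hk], rfl⟩))
  obtain ⟨n, hn⟩ := hfin
  obtain ⟨q, hq, h1, h2⟩ := hF2 (a n) _ hn ⟨p, hp, Cond.agree_of_le (p.le_res α) le_rfl⟩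
  have h3 : Cond.Below α q := h2.mono (by rw [← ha]; exact le_ciSup hb (n + 1))
  have h4 : Cond.Agree p q := by
    intro k b b' hb hb'
    exact h1 k b b' (by simp [Cond.res, h3 k b' hb', hb]) hb'
  rw [hA p hp q hq h4.exists_le]
  exact h3

end Pool.Agent.MP_637f9c_lc.H1
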