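import Mathlib

/-! Models of ZF, and the notions of the problem read inside such a model. -/

namespace Pool.Agent.MP_637f9c_lc.H1

open FirstOrder

/-- the only relation symbol of the language of set theory: membership -/
inductive MemRel : ℕ → Type
  | mem : MemRel 2

/-- the first-order language of set theory -/
def setLang : FirstOrder.Language.{0, 0} := ⟨fun _ => Empty, MemRel⟩

/-- a type with a binary relation `E` as a structure for the language of set theory -/
@[reducible] def memStr {M : Type} (E : M → M → Prop) : setLang.Structure M where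
  funMap := fun f _ => Empty.elim f
  RelMap := fun r v => match r, v with
    | MemRel.mem, v => E (v 0) (v 1)

section

variable {M : Type} (E : M → M → Prop)

/-- `(M, E)` is a model of ZF; the schemes range over all first-order definable classes with
parameters -/
structure IsZF : Prop where
  ext : ∀ a b, (∀ x, E x a ↔ E x b) → a = b
  found : ∀ a, (∃ x, E x a) → ∃ x, E x a ∧ ∀ y, E y x → ¬ E y a
  pair : ∀ a b, ∃ c, ∀ x, E x c ↔ x = a ∨ x = b
  union : ∀ a, ∃ u, ∀ x, E x u ↔ ∃ y, E y a ∧ E x y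
  power : ∀ a, ∃ u, ∀ x, E x u ↔ ∀ y, E y x → E y a
  inf : ∃ w, (∃ e, E e w ∧ ∀ x, ¬ E x e) ∧
    ∀ x, E x w → ∃ s, E s w ∧ ∀ y, E y s ↔ E y x ∨ y = x
  sep : ∀ C : Set M, @Set.Definable₁ M Set.univ setLang (memStr E) C →
    ∀ a, ∃ b, ∀ x, E x b ↔ E x a ∧ x ∈ C
  repl : ∀ C : Set (M × M), @Set.Definable₂ M Set.univ setLang (memStr E) C →
    ∀ a, (∀ x, E x a → ∀ y y', (x, y) ∈ C → (x, y') ∈ C → y = y') →
      ∃ b, ∀ y, E y b ↔ ∃ x, E x a ∧ (x, y) ∈ C

/-- `u = {x, y}` -/
def IsDoub (u x y : M) : Prop := ∀ w, E w u ↔ w = x ∨ w = y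

/-- `z` is the Kuratowski pair `{{x}, {x, y}}` -/
def IsPair (z x y : M) : Prop := ∀ u, E u z ↔ IsDoub E u x x ∨ IsDoub E u x y

/-- the pair `⟨x, y⟩` is an element of `f` -/
def App (f x y : M) : Prop := ∃ z, E z f ∧ IsPair E z x y

/-- `f` is a function: a single-valued set of pairs -/
def IsFunc (f : M) : Prop :=
  (∀ z, E z f → ∃ x y, IsPair E z x y) ∧ ∀ x y y', App E f x y → App E f x y' → y = y'

/-- `e` is an injective function with domain `a` and values in `b` -/
def Inj (e a b : M) : Prop :=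
  IsFunc E e ∧ (∀ x, E x a → ∃ y, App E e x y) ∧ (∀ x y, App E e x y → E x a ∧ E y b) ∧
    ∀ x x' y, App E e x y → App E e x' y → x = x'

/-- `e` is a bijection from `a` onto `b` -/
def Bij (e a b : M) : Prop := Inj E e a b ∧ ∀ y, E y b → ∃ x, App E e x y

/-- `a` is a von Neumann ordinal -/
def IsOrd (a : M) : Prop :=
  (∀ x y, E x a → E y x → E y a) ∧ ∀ x y, E x a → E y a → E x y ∨ x = y ∨ E y x

/-- `l` is a nonzero limit (for an ordinal `l`) -/
def IsLim (l : M) : Prop := (∃ x, E x l) ∧ ∀ x, E x l → ∃ y, E y l ∧ E x y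

/-- `θ` is an infinite ordinal -/
def InfOrd (θ : M) : Prop := IsOrd E θ ∧ ∃ l, (l = θ ∨ E l θ) ∧ IsLim E l

/-- `lam` is `θ⁺`: the least ordinal that does not inject into `θ` -/
def IsSucc (θ lam : M) : Prop :=
  IsOrd E lam ∧ (¬ ∃ e, Inj E e lam θ) ∧ ∀ β, E β lam → ∃ e, Inj E e β θ

/-- `R` is a reflexive, antisymmetric, transitive relation on `X` -/
def IsPO (X R : M) : Prop :=
  (∀ z, E z R → ∃ p q, E p X ∧ E q X ∧ IsPair E z p q) ∧ (∀ p, E p X → App E R p p) ∧
    (∀ p q, App E R p q → App E R q p → p = q) ∧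
    ∀ p q r, App E R p q → App E R q r → App E R p r

/-- `X` is in bijection with an ordinal -/
def Wellorderable (X : M) : Prop := ∃ o e, IsOrd E o ∧ Bij E e o X

/-- `p` and `q` have a common extension -/
def Compat (X R p q : M) : Prop := ∃ r, E r X ∧ App E R r p ∧ App E R r q

/-- `A` is an antichain of `(X, R)` -/
def IsAnti (X R A : M) : Prop :=
  (∀ p, E p A → E p X) ∧ ∀ p q, E p A → E q A → Compat E X R p q → p = q

/-- `(X, R)` has no antichain of cardinality `θ⁺` -/
def ChainCond (θ X R : M) : Prop :=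
  ∀ lam A e, IsSucc E θ lam → IsAnti E X R A → ¬ Bij E e lam A

/-- `f` is an ordinal-valued function on a subset of `X`, equal on compatible conditions -/
def IsHom (X R f : M) : Prop :=
  IsFunc E f ∧ (∀ p y, App E f p y → E p X ∧ IsOrd E y) ∧
    ∀ p q y y', App E f p y → App E f q y' → Compat E X R p q → y = y'

/-- `o` is the range of `f` -/
def IsRan (f o : M) : Prop := ∀ y, E y o ↔ ∃ p, App E f p y

/-- some function `G` sends each homomorphism `f` whose range is an ordinal `o` to an injection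
of `o` into `θ` -/
def UnifNarrow (θ X R : M) : Prop :=
  ∃ G, IsFunc E G ∧ ∀ f o, IsHom E X R f → IsOrd E o → IsRan E f o →
    ∃ e, App E G f e ∧ Inj E e o θ

/-- statement Q1 read in `(M, E)` -/
def Q1 : Prop :=
  ∀ θ X R, InfOrd E θ → IsPO E X R → Wellorderable E X → ChainCond E θ X R → UnifNarrow E θ X R

end

end Pool.Agent.MP_637f9c_lc.H1
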