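import Pool.Agent.MP_637f9c_lc.H1.Names

/-! Formulas with de Bruijn indices, satisfaction and forcing. -/

namespace Pool.Agent.MP_637f9c_lc.H1

inductive Fml : Type
  | mem (i j : ℕ) : Fml
  | eq (i j : ℕ) : Fml
  | bot : Fml
  | imp (φ ψ : Fml) : Fml
  | all (φ : Fml) : Fml

/-- push a value on a valuation -/
def cons {α : Type*} (x : α) (v : ℕ → α) : ℕ → α
  | 0 => x
  | n + 1 => v n

@[simp] lemma cons_zero {α : Type*} (x : α) (v : ℕ → α) : cons x v 0 = x := rfl
@[simp] lemma cons_succ {α : Type*} (x : α) (v : ℕ → α) (n : ℕ) : cons x v (n + 1) = v n := rfl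
@[simp] lemma cons_one {α : Type*} (x : α) (v : ℕ → α) : cons x v 1 = v 0 := rfl
@[simp] lemma cons_two {α : Type*} (x : α) (v : ℕ → α) : cons x v 2 = v 1 := rfl
@[simp] lemma cons_three {α : Type*} (x : α) (v : ℕ → α) : cons x v 3 = v 2 := rfl
@[simp] lemma cons_four {α : Type*} (x : α) (v : ℕ → α) : cons x v 4 = v 3 := rfl
@[simp] lemma cons_five {α : Type*} (x : α) (v : ℕ → α) : cons x v 5 = v 4 := rfl

lemma comp_cons {α β : Type*} (f : α → β) (x : α) (v : ℕ → α) :
    f ∘ cons x v = cons (f x) (f ∘ v) := by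
  funext n; cases n <;> rfl

/-- lift a renaming under a binder -/
def up (σ : ℕ → ℕ) : ℕ → ℕ := cons 0 (fun n => σ n + 1)

lemma cons_comp_up {α : Type*} (x : α) (v : ℕ → α) (σ : ℕ → ℕ) :
    cons x v ∘ up σ = cons x (v ∘ σ) := by
  funext n; cases n <;> rfl

namespace Fml

def not (φ : Fml) : Fml := imp φ bot
def and (φ ψ : Fml) : Fml := not (imp φ (not ψ))
def or (φ ψ : Fml) : Fml := imp (not φ) ψ
def iff (φ ψ : Fml) : Fml := and (imp φ ψ) (imp ψ φ)
def ex (φ : Fml) : Fml := not (all (not φ))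

def ren : Fml → (ℕ → ℕ) → Fml
  | mem i j, σ => mem (σ i) (σ j)
  | eq i j, σ => eq (σ i) (σ j)
  | bot, _ => bot
  | imp φ ψ, σ => imp (φ.ren σ) (ψ.ren σ)
  | all φ, σ => all (φ.ren (up σ))

def bound : Fml → ℕ
  | mem i j => max i j + 1
  | eq i j => max i j + 1
  | bot => 0
  | imp φ ψ => max φ.bound ψ.bound
  | all φ => φ.bound

def enc : Fml → ℕ
  | mem i j => Nat.pair 0 (Nat.pair i j)
  | eq i j => Nat.pair 1 (Nat.pair i j)
  | bot => Nat.pair 2 0
  | imp φ ψ => Nat.pair 3 (Nat.pair φ.enc ψ.enc)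
  | all φ => Nat.pair 4 φ.enc

lemma enc_inj : ∀ φ ψ : Fml, φ.enc = ψ.enc → φ = ψ := by
  intro φ
  induction φ with
  | mem i j => intro ψ; cases ψ <;> simp [enc, Nat.pair_eq_pair]
  | eq i j => intro ψ; cases ψ <;> simp [enc, Nat.pair_eq_pair]
  | bot => intro ψ; cases ψ <;> simp [enc, Nat.pair_eq_pair]
  | imp a b iha ihb =>
    intro ψ; cases ψ <;> simp [enc, Nat.pair_eq_pair]
    exact fun h1 h2 => ⟨iha _ h1, ihb _ h2⟩
  | all a iha =>
    intro ψ; cases ψ <;> simp [enc, Nat.pair_eq_pair]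
    exact iha _

instance : Countable Fml := ⟨⟨enc, enc_inj⟩⟩

end Fml

open Fml

/-- Tarski satisfaction -/
def Sat {M : Type} (E : M → M → Prop) : Fml → (ℕ → M) → Prop
  | .mem i j, v => E (v i) (v j)
  | .eq i j, v => v i = v j
  | .bot, _ => False
  | .imp φ ψ, v => Sat E φ v → Sat E ψ v
  | .all φ, v => ∀ x, Sat E φ (cons x v)

section sat

variable {M : Type} {E : M → M → Prop} {v : ℕ → M} {φ ψ : Fml}

@[simp] lemma sat_mem {i j : ℕ} : Sat E (.mem i j) v ↔ E (v i) (v j) := Iff.rfl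
@[simp] lemma sat_eq {i j : ℕ} : Sat E (.eq i j) v ↔ v i = v j := Iff.rfl
@[simp] lemma sat_bot : Sat E .bot v ↔ False := Iff.rfl
@[simp] lemma sat_imp : Sat E (.imp φ ψ) v ↔ (Sat E φ v → Sat E ψ v) := Iff.rfl
@[simp] lemma sat_all : Sat E (.all φ) v ↔ ∀ x, Sat E φ (cons x v) := Iff.rfl
@[simp] lemma sat_not : Sat E φ.not v ↔ ¬ Sat E φ v := Iff.rfl
@[simp] lemma sat_and : Sat E (φ.and ψ) v ↔ Sat E φ v ∧ Sat E ψ v := by simp [Fml.and]
@[simp] lemma sat_or : Sat E (φ.or ψ) v ↔ Sat E φ v ∨ Sat E ψ v := by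
  simp [Fml.or, or_iff_not_imp_left]
@[simp] lemma sat_iff : Sat E (φ.iff ψ) v ↔ (Sat E φ v ↔ Sat E ψ v) := by
  simp [Fml.iff, iff_def]
@[simp] lemma sat_ex : Sat E φ.ex v ↔ ∃ x, Sat E φ (cons x v) := by simp [Fml.ex]

lemma sat_ren (σ : ℕ → ℕ) : Sat E (φ.ren σ) v ↔ Sat E φ (v ∘ σ) := by
  induction φ generalizing σ v with
  | mem i j => rfl
  | eq i j => rfl
  | bot => rfl
  | imp a b iha ihb => simp [Fml.ren, iha, ihb]
  | all a iha => simp [Fml.ren, iha, cons_comp_up]

end sat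

/-- the forcing relation of the symmetric extension -/
def Frc : Fml → (ℕ → HN) → Cond → Prop
  | .mem i j, v, p => FMem (v i).1 (v j).1 p
  | .eq i j, v, p => FEq (v i).1 (v j).1 p
  | .bot, _, _ => False
  | .imp φ ψ, v, p => ∀ q, q ≤ p → Frc φ v q → Frc ψ v q
  | .all φ, v, p => ∀ x, Frc φ (cons x v) p

section frc

variable {v w : ℕ → HN} {φ ψ : Fml} {p q : Cond}

@[simp] lemma frc_mem {i j : ℕ} : Frc (.mem i j) v p ↔ FMem (v i).1 (v j).1 p := Iff.rfl
@[simp] lemma frc_eq {i j : ℕ} : Frc (.eq i j) v p ↔ FEq (v i).1 (v j).1 p := Iff.rfl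
@[simp] lemma frc_bot : Frc .bot v p ↔ False := Iff.rfl
@[simp] lemma frc_imp : Frc (.imp φ ψ) v p ↔ ∀ q, q ≤ p → Frc φ v q → Frc ψ v q := Iff.rfl
@[simp] lemma frc_all : Frc (.all φ) v p ↔ ∀ x, Frc φ (cons x v) p := Iff.rfl
@[simp] lemma frc_not : Frc φ.not v p ↔ ∀ q, q ≤ p → ¬ Frc φ v q := Iff.rfl

lemma Frc.mono (h : Frc φ v p) (hq : q ≤ p) : Frc φ v q := by
  induction φ generalizing v with
  | mem i j => exact FMem.mono h hq
  | eq i j => exact FEq.mono h hq
  | bot => exact h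
  | imp a b _ _ => exact fun r hr => h r (hr.trans hq)
  | all a iha => exact fun x => iha (h x)

lemma Frc.of_dn (h : Dn (Frc φ v) p) : Frc φ v p := by
  induction φ generalizing v p with
  | mem i j => exact FMem.of_dn h
  | eq i j => exact FEq.of_dn h
  | bot => obtain ⟨_, _, h⟩ := h.ex; exact h
  | imp a b _ ihb =>
    intro q hq ha
    exact ihb ((h.mono hq).imp fun r hr h1 => ⟨r, le_rfl, h1 r le_rfl (ha.mono hr)⟩)
  | all a iha => exact fun x => iha (h.imp fun r _ h1 => ⟨r, le_rfl, h1 x⟩)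

lemma Frc.by_contra (h : ∀ q, q ≤ p → ¬ Frc φ.not v q) : Frc φ v p := by
  apply Frc.of_dn
  intro q hq
  have := h q hq
  simp only [frc_not, not_forall, not_not, exists_prop] at this
  exact this

lemma exists_not (h : ¬ Frc φ v p) : ∃ q, q ≤ p ∧ Frc φ.not v q := by
  by_contra hc
  exact h (Frc.by_contra fun q hq h1 => hc ⟨q, hq, h1⟩)

@[simp] lemma frc_and : Frc (φ.and ψ) v p ↔ Frc φ v p ∧ Frc ψ v p := by
  constructor
  · intro h
    constructor
    · exact Frc.by_contra fun q hq h1 => h q hq fun r hr h2 => absurd h2 (h1 r hr)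
    · exact Frc.by_contra fun q hq h1 => h q hq fun r hr _ => Frc.mono h1 hr
  · rintro ⟨h1, h2⟩ q hq h
    exact h q le_rfl (h1.mono hq) q le_rfl (h2.mono hq)

@[simp] lemma frc_or : Frc (φ.or ψ) v p ↔ Dn (fun r => Frc φ v r ∨ Frc ψ v r) p := by
  constructor
  · intro h q hq
    by_cases h1 : Frc φ v q
    · exact ⟨q, le_rfl, Or.inl h1⟩
    · obtain ⟨r, hr, h2⟩ := exists_not h1
      exact ⟨r, hr, Or.inr (h r (hr.trans hq) h2)⟩
  · intro h q hq h1
    refine Frc.of_dn ((h.mono hq).imp fun r hr h2 => ⟨r, le_rfl, ?_⟩)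
    exact h2.resolve_left (h1 r hr)

@[simp] lemma frc_iff : Frc (φ.iff ψ) v p ↔ ∀ q, q ≤ p → (Frc φ v q ↔ Frc ψ v q) := by
  simp only [Fml.iff, frc_and, frc_imp]
  exact ⟨fun h q hq => ⟨h.1 q hq, h.2 q hq⟩,
    fun h => ⟨fun q hq => (h q hq).1, fun q hq => (h q hq).2⟩⟩

@[simp] lemma frc_ex : Frc φ.ex v p ↔ Dn (fun r => ∃ x, Frc φ (cons x v) r) p := by
  simp only [Fml.ex, frc_not, frc_all, not_forall, not_not, exists_prop]
  constructor
  · intro h q hq
    obtain ⟨x, r, hr, h1⟩ := h q hq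
    exact ⟨r, hr, x, h1⟩
  · intro h q hq
    obtain ⟨r, hr, x, h1⟩ := h q hq
    exact ⟨x, r, hr, h1⟩

lemma frc_ren (σ : ℕ → ℕ) : Frc (φ.ren σ) v p ↔ Frc φ (v ∘ σ) p := by
  induction φ generalizing σ v p with
  | mem i j => rfl
  | eq i j => rfl
  | bot => rfl
  | imp a b iha ihb => simp [Fml.ren, iha, ihb]
  | all a iha => simp [Fml.ren, iha, cons_comp_up]

lemma frc_congr (h : ∀ i, i < φ.bound → FEq (v i).1 (w i).1 p) : Frc φ v p ↔ Frc φ w p := by
  induction φ generalizing v w p with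
  | mem i j =>
    have h1 := h i (by simp only [bound]; omega)
    have h2 := h j (by simp only [bound]; omega)
    exact ⟨fun h => (FMem.left h h1).right h2, fun h => (FMem.left h h1.symm).right h2.symm⟩
  | eq i j =>
    have h1 := h i (by simp only [bound]; omega)
    have h2 := h j (by simp only [bound]; omega)
    exact ⟨fun h => (h1.symm.trans h).trans h2, fun h => (h1.trans h).trans h2.symm⟩
  | bot => rfl
  | imp a b iha ihb =>
    refine forall_congr' fun q => forall_congr' fun hq => imp_congr (iha fun i hi => ?_)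
      (ihb fun i hi => ?_)
    · exact (h i (by simp only [bound]; omega)).mono hq
    · exact (h i (by simp only [bound]; omega)).mono hq
  | all a iha =>
    refine forall_congr' fun x => iha fun i hi => ?_
    cases i with
    | zero => exact FEq.refl _ _
    | succ i => exact h i (by simp only [bound]; omega)

lemma Frc.congr0 {x y : HN} (h : Frc φ (cons x v) p) (e : FEq x.1 y.1 p) : Frc φ (cons y v) p := by
  refine (frc_congr fun i _ => ?_).1 h
  cases i with
  | zero => exact e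
  | succ i => exact FEq.refl _ _

lemma frc_smul (g : Grp) : Frc φ (fun i => g • v i) (g • p) ↔ Frc φ v p := by
  induction φ generalizing v p with
  | mem i j => exact ⟨fun h => by simpa using FMem.smul g⁻¹ h, fun h => FMem.smul g h⟩
  | eq i j => exact ⟨fun h => by simpa using FEq.smul g⁻¹ h, fun h => FEq.smul g h⟩
  | bot => rfl
  | imp a b iha ihb =>
    constructor
    · intro h q hq ha
      exact ihb.1 (h _ (Cond.smul_le g hq) (iha.2 ha))
    · intro h q hq ha
      rw [← smul_inv_smul g q] at ha ⊢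
      exact ihb.2 (h _ ((Cond.le_smul_iff g).1 hq) (iha.1 ha))
  | all a iha =>
    have e : ∀ x, cons (g • x) (fun i => g • v i) = fun i => g • cons x v i := by
      intro x; funext i; cases i <;> rfl
    constructor
    · intro h x
      have := h (g • x)
      rw [e] at this
      exact iha.1 this
    · intro h x
      rw [← smul_inv_smul g x, e]
      exact iha.2 (h _)

lemma Frc.inv {α : Ordinal.{0}} {g : Grp} {x : HN} (hv : ∀ i, Supp α (v i).1) (hg : Fix α g)
    (h : Frc φ (cons x v) p) : Frc φ (cons (g • x) v) (g • p) := by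
  refine (frc_congr fun i _ => ?_).1 ((frc_smul g).2 h)
  cases i with
  | zero => exact FEq.refl _ _
  | succ i => exact (hv i g hg).mono le_top

end frc

end Pool.Agent.MP_637f9c_lc.H1
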