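import Pool.Agent.MP_637f9c_lc.H1.Fml

/-! A countable two-valued model of everything forced by the trivial condition. -/

namespace Pool.Agent.MP_637f9c_lc.H1

/-- the empty name -/
def emp : HN := ⟨.mk PEmpty (fun i => i.elim) (fun i => i.elim),
  ⟨⟨0, fun _ _ => feq_of_children (fun i => i.elim) (fun i => i.elim)⟩, fun i => i.elim⟩⟩

lemma decide_all (p : Cond) (t : ℕ → HN) (ψ : Fml) :
    ∃ r : Cond × HN, r.1 ≤ p ∧ (Frc (.all ψ) t r.1 ∨ Frc ψ.not (cons r.2 t) r.1) := by
  by_cases h : Frc (.all ψ) t p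
  · exact ⟨(p, emp), le_rfl, Or.inl h⟩
  · obtain ⟨x, hx⟩ := not_forall.1 h
    obtain ⟨q, hq, h1⟩ := exists_not hx
    exact ⟨(q, x), hq, Or.inr h1⟩

/-- the stages of the construction -/
noncomputable def stage (e : ℕ → Fml) : ℕ → Cond × (ℕ → HN)
  | 0 => (⊤, fun _ => emp)
  | n + 1 =>
    ((decide_all (stage e n).1 (stage e n).2 (e n)).choose.1,
      Function.update (stage e n).2 n (decide_all (stage e n).1 (stage e n).2 (e n)).choose.2)

noncomputable def dd (e : ℕ → Fml) (n : ℕ) : Cond := (stage e n).1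

noncomputable def ss (e : ℕ → Fml) (n : ℕ) : HN := (stage e (n + 1)).2 n

lemma dd_anti (e : ℕ → Fml) : Antitone (dd e) :=
  antitone_nat_of_succ_le fun n => (decide_all (stage e n).1 (stage e n).2 (e n)).choose_spec.1

lemma stage_eq (e : ℕ → Fml) (m k : ℕ) (h : k < m) : (stage e m).2 k = ss e k := by
  induction m with
  | zero => omega
  | succ m ih =>
    by_cases hk : k = m
    · subst hk; rfl
    · rw [stage]
      simp only
      rw [Function.update_of_ne hk]
      exact ih (by omega)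

lemma stage_spec (e : ℕ → Fml) (n : ℕ) (h : (e n).bound ≤ n) :
    Frc (.all (e n)) (ss e) (dd e (n + 1)) ∨
      Frc (e n).not (cons (ss e n) (ss e)) (dd e (n + 1)) := by
  have h1 := (decide_all (stage e n).1 (stage e n).2 (e n)).choose_spec.2
  have h2 : ss e n = (decide_all (stage e n).1 (stage e n).2 (e n)).choose.2 := by
    simp [ss, stage]
  rw [← h2] at h1
  refine h1.imp (fun h3 => (frc_congr fun i hi => ?_).1 h3) (fun h3 => (frc_congr fun i hi => ?_).1 h3)
  · rw [stage_eq e n i (lt_of_lt_of_le hi h)]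
    exact FEq.refl _ _
  · cases i with
    | zero => exact FEq.refl _ _
    | succ i =>
      have : i < n := by
        simp only [Fml.not, Fml.bound] at hi
        omega
      simp only [cons_succ]
      rw [stage_eq e n i this]
      exact FEq.refl _ _

lemma exists_enum : ∃ e : ℕ → Fml, ∀ φ N, ∃ n, N ≤ n ∧ e n = φ := by
  have : Nonempty (Fml × ℕ) := ⟨(.bot, 0)⟩
  obtain ⟨f, hf⟩ := exists_surjective_nat (Fml × ℕ)
  refine ⟨fun n => (f n).1, fun φ N => ?_⟩
  choose g hg using fun j : ℕ => hf (φ, j)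
  have hinj : Function.Injective g := fun i j h => by
    have := (hg i).symm.trans (h ▸ hg j)
    exact (Prod.mk.inj this).2
  obtain ⟨n, ⟨j, rfl⟩, hn⟩ := (Set.infinite_range_of_injective hinj).exists_gt N
  exact ⟨g j, hn.le, by simp [hg]⟩

theorem exists_model : ∃ (M : Type) (E : M → M → Prop), Countable M ∧ Nonempty M ∧
    ∀ φ : Fml, (∀ v, Frc φ v ⊤) → ∀ w, Sat E φ w := by
  obtain ⟨e, he⟩ := exists_enum
  set s := ss e
  set d := dd e
  have hd : Antitone d := dd_anti e
  have hall : ∀ (φ : Fml) (σ : ℕ → ℕ), ∃ n, Frc (.all φ) (s ∘ σ) (d n) ∨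
      ∃ k, Frc φ.not (s ∘ cons k σ) (d n) := by
    intro φ σ
    obtain ⟨n, hn, h1⟩ := he (φ.ren (up σ)) (φ.ren (up σ)).bound
    have := stage_spec e n (h1 ▸ hn)
    rw [h1] at this
    refine ⟨n + 1, this.imp (fun h => ?_) fun h => ⟨n, ?_⟩⟩
    · exact (frc_ren (φ := .all φ) σ).1 h
    · have := (frc_ren (φ := φ.not) (up σ)).1 h
      rwa [cons_comp_up, ← comp_cons] at this
  have hdec : ∀ (φ : Fml) (σ : ℕ → ℕ), ∃ n, Frc φ (s ∘ σ) (d n) ∨ Frc φ.not (s ∘ σ) (d n) := by
    intro φ σ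
    obtain ⟨n, h⟩ := hall (φ.ren Nat.succ) σ
    refine ⟨n, h.imp (fun h => ?_) fun ⟨k, h⟩ => ?_⟩
    · exact (frc_ren Nat.succ).1 (h emp)
    · exact (frc_ren (φ := φ.not) Nat.succ).1 h
  let S : Setoid ℕ := ⟨fun i j => ∃ n, FEq (s i).1 (s j).1 (d n),
    fun i => ⟨0, FEq.refl _ _⟩, fun ⟨n, h⟩ => ⟨n, h.symm⟩,
    fun ⟨n, h⟩ ⟨m, h'⟩ => ⟨max n m, (h.mono (hd (le_max_left _ _))).trans
      (h'.mono (hd (le_max_right _ _)))⟩⟩
  let E : Quotient S → Quotient S → Prop := fun a b =>
    ∃ i j, a = Quotient.mk S i ∧ b = Quotient.mk S j ∧ ∃ n, FMem (s i).1 (s j).1 (d n)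
  have truth : ∀ (φ : Fml) (σ : ℕ → ℕ),
      Sat E φ (Quotient.mk S ∘ σ) ↔ ∃ n, Frc φ (s ∘ σ) (d n) := by
    intro φ
    induction φ with
    | mem i j =>
      intro σ
      constructor
      · rintro ⟨a, b, ha, hb, n, h⟩
        obtain ⟨n1, h1⟩ := Quotient.exact ha
        obtain ⟨n2, h2⟩ := Quotient.exact hb
        refine ⟨max n (max n1 n2), ?_⟩
        exact ((h.mono (hd (by simp))).left (h1.symm.mono (hd (by simp)))).right
          (h2.symm.mono (hd (by simp)))
      · intro h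
        exact ⟨σ i, σ j, rfl, rfl, h⟩
    | eq i j => exact fun σ => ⟨fun h => Quotient.exact h, fun h => Quotient.sound h⟩
    | bot => simp
    | imp a b iha ihb =>
      intro σ
      rw [sat_imp, iha, ihb]
      constructor
      · intro h
        obtain ⟨n, h1 | h1⟩ := hdec a σ
        · obtain ⟨m, h2⟩ := h ⟨n, h1⟩
          exact ⟨m, fun q hq _ => h2.mono hq⟩
        · exact ⟨n, fun q hq h2 => absurd h2 (h1 q hq)⟩
      · rintro ⟨n, h⟩ ⟨m, h1⟩
        exact ⟨max n m, h _ (hd (le_max_left _ _)) (h1.mono (hd (le_max_right _ _)))⟩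
    | all a iha =>
      intro σ
      rw [sat_all]
      constructor
      · intro h
        obtain ⟨n, h1 | ⟨k, h1⟩⟩ := hall a σ
        · exact ⟨n, h1⟩
        · have := h (Quotient.mk S k)
          rw [← comp_cons, iha] at this
          obtain ⟨m, h2⟩ := this
          exact absurd (h2.mono (hd (le_max_right n m))) (h1 _ (hd (le_max_left n m)))
      · rintro ⟨n, h⟩ x
        obtain ⟨k, rfl⟩ := Quotient.exists_rep x
        rw [← comp_cons, iha]
        exact ⟨n, by rw [comp_cons]; exact h _⟩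
  refine ⟨Quotient S, E, inferInstance, ⟨Quotient.mk S 0⟩, fun φ h w => ?_⟩
  have : w = Quotient.mk S ∘ fun i => (w i).out := by
    funext i; simp
  rw [this, truth]
  exact ⟨0, (h _).mono le_top⟩

end Pool.Agent.MP_637f9c_lc.H1
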