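import Pool.Agent.MP_637f9c_lc.H1.Notions

/-! The collapse, seen from the symmetric extension, is a wellordered forcing with countable
antichains that is not uniformly narrow. -/

namespace Pool.Agent.MP_637f9c_lc.H1

open Fml

/-- a fixed well-order of the conditions -/
abbrev W : Cond → Cond → Prop := WellOrderingRel

/-- the order of the ordinals -/
abbrev olt : Ordinal.{0} → Ordinal.{0} → Prop := (· < ·)

noncomputable def thN : HN := ocAll nlt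

noncomputable def XN : HN := ocAll W

noncomputable def RN : HN := ⟨relN W W fun s t _ => s ≤ t, hs_relN 0 fun _ _ _ _ _ h => h⟩

lemma RN_val : RN.1 = relN W W fun s t _ => s ≤ t := rfl

lemma fapp_RN {x y : HN} {p : Cond} : FApp RN x y p ↔
    Dn (fun q => ∃ s t, s ≤ t ∧ FEq x.1 (oc W s).1 q ∧ FEq y.1 (oc W t).1 q) p := by
  rw [fapp_rel RN_val]
  exact ⟨fun h => h.imp fun q _ ⟨s, t, _, h1, _, h2⟩ => ⟨q, le_rfl, s, t, h1, h2⟩,
    fun h => h.imp fun q _ ⟨s, t, h1, h2⟩ => ⟨q, le_rfl, s, t, ⊤, h1, le_top, h2⟩⟩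

lemma frc_lim {v : ℕ → HN} {a : ℕ} (h : v a = thN) (p : Cond) : Frc (limF a) v p := by
  simp only [limF, frc_and, frc_ex, frc_all, frc_imp, frc_mem, cons_zero, cons_succ, h]
  refine ⟨Dn.of_all fun q _ => ⟨oc nlt ⟨0⟩, oc_mem_all _ _⟩, fun x q _ hx => ?_⟩
  exact (fmem_ocAll.1 hx).imp fun u _ ⟨n, hn⟩ => ⟨u, le_rfl, oc nlt ⟨n.down + 1⟩, oc_mem_all _ _,
    (oc_mem_oc (r := nlt) (Nat.lt_succ_self _) u).left hn.symm⟩

lemma frc_po {v : ℕ → HN} {a b : ℕ} (ha : v a = XN) (hb : v b = RN) (p : Cond) :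
    Frc (poF a b) v p := by
  simp only [poF, frc_and, frc_ex, frc_all, frc_imp, frc_mem, frc_pairF, frc_appF, frc_eq,
    cons_zero, cons_succ, ha, hb]
  refine ⟨fun z q _ hz => ?_, fun x q _ hx => ?_, fun x y q _ h1 q' hq' h2 => ?_,
    fun x y z q _ h1 q' hq' h2 => ?_⟩
  · rw [RN_val] at hz
    exact (fmem_relN.1 hz).imp fun u _ ⟨s, t, _, _, _, h1⟩ => ⟨u, le_rfl, oc W s,
      Dn.of_all fun u' hu' => ⟨oc W t, oc_mem_all _ _, oc_mem_all _ _, h1.mono hu'⟩⟩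
  · exact fapp_RN.2 ((fmem_ocAll.1 hx).imp fun u _ ⟨s, hs⟩ => ⟨u, le_rfl, s, s, le_rfl, hs, hs⟩)
  · refine FEq.of_dn ((fapp_RN.1 (h1.mono hq')).imp fun u hu ⟨s, t, h3, h4, h5⟩ => ?_)
    obtain ⟨u', hu', s', t', h3', h4', h5'⟩ := fapp_RN.1 h2 u hu
    have e1 : t = s' := oc_inj ((h5.symm.mono hu').trans h4')
    have e2 : s = t' := oc_inj ((h4.symm.mono hu').trans h5')
    subst e1 e2
    rw [le_antisymm h3 h3'] at h4
    exact ⟨u', hu', (h4.mono hu').trans h4'.symm⟩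
  · refine fapp_RN.2 ((fapp_RN.1 (h1.mono hq')).imp fun u hu ⟨s, t, h3, h4, h5⟩ => ?_)
    obtain ⟨u', hu', s', t', h3', h4', h5'⟩ := fapp_RN.1 h2 u hu
    have e1 : t = s' := oc_inj ((h5.symm.mono hu').trans h4')
    subst e1
    exact ⟨u', hu', s, t', h3.trans h3', h4.mono hu', h5'⟩

lemma frc_wo {v : ℕ → HN} {a : ℕ} (ha : v a = XN) (p : Cond) :
    Frc (ex (bijF 0 (a + 1) (a + 1))) v p := by
  let I : HN := ⟨relN W W fun s t _ => s = t, hs_relN 0 fun _ _ _ _ _ h => h⟩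
  have hv : I.1 = relN W W fun s t _ => s = t := rfl
  have hI : ∀ {x y : HN} {q : Cond}, FApp I x y q →
      Dn (fun q => ∃ s, FEq x.1 (oc W s).1 q ∧ FEq y.1 (oc W s).1 q) q := fun h =>
    ((fapp_rel hv).1 h).imp fun u _ ⟨s, t, _, h1, _, h2⟩ => ⟨u, le_rfl, s, h1 ▸ h2⟩
  have hI' : ∀ (s : Cond) (q : Cond), FApp I (oc W s) (oc W s) q := fun s q =>
    fapp_rel_of hv (q := ⊤) rfl le_top
  rw [frc_ex]
  refine Dn.of_all fun q _ => ⟨I, ?_⟩
  simp only [bijF, frc_and, frc_injF, frc_ex, frc_all, frc_imp, frc_mem, frc_appF,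
    cons_zero, cons_succ, ha]
  refine ⟨⟨frc_func_rel (f := 0) hv fun s t t' _ _ _ h1 h2 _ _ _ => h1.symm.trans h2,
    fun x u _ hx => ?_, fun x y u _ h => ?_, fun x x' y u _ h1 h2 => ?_⟩, fun y u _ hy => ?_⟩
  · exact (fmem_ocAll.1 hx).imp fun u' _ ⟨s, hs⟩ =>
      ⟨u', le_rfl, oc W s, (hI' s u').congr (FEq.refl _ _) hs.symm (FEq.refl _ _)⟩
  · exact ⟨fmem_ocAll.2 ((hI h).imp fun u' _ ⟨s, h1, _⟩ => ⟨u', le_rfl, s, h1⟩),
      fmem_ocAll.2 ((hI h).imp fun u' _ ⟨s, _, h1⟩ => ⟨u', le_rfl, s, h1⟩)⟩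
  · refine FEq.of_dn ((hI h1).imp fun u' hu' ⟨s, h3, h4⟩ => ?_)
    obtain ⟨w, hw, s', h3', h4'⟩ := hI h2 u' hu'
    have e1 : s = s' := oc_inj ((h4.symm.mono hw).trans h4')
    subst e1
    exact ⟨w, hw, (h3.mono hw).trans h3'.symm⟩
  · exact (fmem_ocAll.1 hy).imp fun u' _ ⟨s, hs⟩ =>
      ⟨u', le_rfl, oc W s, (hI' s u').congr (FEq.refl _ _) (FEq.refl _ _) hs.symm⟩

lemma frc_comp {v : ℕ → HN} {a b x y : ℕ} (ha : v a = XN) (hb : v b = RN) {p s t : Cond}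
    (hx : FEq (v x).1 (oc W s).1 p) (hy : FEq (v y).1 (oc W t).1 p) :
    Frc (compF a b x y) v p ↔ ∃ u, u ≤ s ∧ u ≤ t := by
  rw [frc_compF, ha, hb]
  constructor
  · intro h
    obtain ⟨q, hq, z, _, h1, h2⟩ := h.ex
    obtain ⟨q1, hq1, u, s', h3, h4, h5⟩ := (fapp_RN.1 h1).ex
    obtain ⟨q2, hq2, u', t', h3', h4', h5'⟩ := fapp_RN.1 h2 q1 hq1
    have e1 : u = u' := oc_inj ((h4.symm.mono hq2).trans h4')
    have e2 : s = s' := oc_inj ((hx.symm.mono (hq1.trans hq)).trans h5)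
    have e3 : t = t' := oc_inj ((hy.symm.mono (hq2.trans (hq1.trans hq))).trans h5')
    subst e1 e2 e3
    exact ⟨u, h3, h3'⟩
  · rintro ⟨u, h1, h2⟩
    exact Dn.of_all fun q hq => ⟨oc W u, oc_mem_all _ _,
      fapp_RN.2 (Dn.of_all fun q' hq' => ⟨u, s, h1, FEq.refl _ _, hx.mono (hq'.trans hq)⟩),
      fapp_RN.2 (Dn.of_all fun q' hq' => ⟨u, t, h2, FEq.refl _ _, hy.mono (hq'.trans hq)⟩)⟩

lemma exists_code (β : Ordinal.{0}) : ∃ (a : Ordinal.{0}) (e : Cond → Ordinal.{0}),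
    (∀ x, Cond.Below β x → e x ≤ a) ∧
      ∀ x y, Cond.Below β x → Cond.Below β y → e x = e y → x = y := by
  classical
  have := Cond.small_below β
  let S := Shrink.{0} {p : Cond // Cond.Below β p}
  refine ⟨Ordinal.type (WellOrderingRel : S → S → Prop), fun x => if h : Cond.Below β x then
    Ordinal.typein (WellOrderingRel : S → S → Prop) (equivShrink _ ⟨x, h⟩) else 0,
    fun x hx => ?_, fun x y hx hy h => ?_⟩
  · simp only [hx, dif_pos]
    exact (Ordinal.typein_lt_type _ _).le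
  · simp only [hx, hy, dif_pos] at h
    have := (equivShrink _).injective ((Ordinal.typein_injective _) h)
    exact congrArg Subtype.val this

lemma exists_fill (a : Ordinal.{0}) (N : ℕ) (q : Cond) :
    ∃ u, u ≤ q ∧ ∀ m, m < N → ∃ c, u.f (a, m) = some c := by
  induction N with
  | zero => exact ⟨q, le_rfl, fun m hm => absurd hm (Nat.not_lt_zero _)⟩
  | succ N ih =>
    obtain ⟨u, hu, h⟩ := ih
    cases hN : u.f (a, N) with
    | some c =>
      refine ⟨u, hu, fun m hm => ?_⟩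
      rcases Nat.lt_succ_iff_lt_or_eq.1 hm with h1 | h1
      · exact h m h1
      · exact ⟨c, h1 ▸ hN⟩
    | none =>
      obtain ⟨w, hw, h1⟩ := u.exists_ext (a, N) 0 zero_le hN
      refine ⟨w, hw.trans hu, fun m hm => ?_⟩
      rcases Nat.lt_succ_iff_lt_or_eq.1 hm with h2 | h2
      · obtain ⟨c, hc⟩ := h m h2
        exact ⟨c, hw _ _ hc⟩
      · exact ⟨0, h2 ▸ h1⟩

lemma exists_least (a b : Ordinal.{0}) (hb : b ≤ a) (q : Cond) : ∃ u, u ≤ q ∧ ∃ n : ℕ,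
    u.f (a, n) = some b ∧ ∀ m, m < n → ∃ c, u.f (a, m) = some c ∧ c ≠ b := by
  classical
  obtain ⟨N, hN⟩ := q.exists_fresh
  have h0 : q.f (a, N) = none := by
    cases h : q.f (a, N) with
    | none => rfl
    | some c => exact absurd (hN _ _ h) (lt_irrefl _)
  obtain ⟨w, hw, h1⟩ := q.exists_ext (a, N) b hb h0
  obtain ⟨u, hu, h2⟩ := exists_fill a N w
  have hex : ∃ n, u.f (a, n) = some b := ⟨N, hu _ _ h1⟩
  refine ⟨u, hu.trans hw, Nat.find hex, Nat.find_spec hex, fun m hm => ?_⟩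
  obtain ⟨c, hc⟩ := h2 m (hm.trans_le (Nat.find_min' hex (hu _ _ h1)))
  exact ⟨c, hc, fun e => Nat.find_min hex hm (e ▸ hc)⟩

lemma frc_anti {v : ℕ → HN} (h1 : v 1 = thN) (h2 : v 2 = XN) (h3 : v 3 = RN) {p : Cond}
    (h : Frc (antiF 2 3 0) v p) : Frc (ex (injF 0 1 2)) v p := by
  set A := v 0 with hA
  obtain ⟨hsub, hanti⟩ := frc_and.1 h
  simp only [frc_all, frc_imp, frc_mem, cons_zero, cons_succ, h2, ← hA] at hsub
  have hanti' : ∀ r, r ≤ p → ∀ x y, FMem (oc W x).1 A.1 r → FMem (oc W y).1 A.1 r →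
      (∃ u, u ≤ x ∧ u ≤ y) → x = y := by
    intro r hr x y hx hy hc
    exact oc_inj (hanti (oc W x) (oc W y) r hr hx r le_rfl hy r le_rfl
      ((frc_comp (v := cons (oc W y) (cons (oc W x) v)) (a := 4) (b := 5) (x := 1) (y := 0) h2 h3
        (FEq.refl _ _) (FEq.refl _ _)).2 hc))
  obtain ⟨α1, hα1⟩ := A.supp
  obtain ⟨α2, hα2⟩ := p.exists_below
  set α := max α1 α2
  have hAs : Supp α A.1 := hα1.mono (le_max_left _ _)
  have hpb : Cond.Below α p := hα2.mono (le_max_right _ _)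
  have hinv : ∀ g, Fix α g → ∀ x q, FMem (oc W x).1 A.1 q → FMem (oc W x).1 A.1 (g • q) := by
    intro g hg x q hx
    have := hx.smul g
    rw [smul_oc] at this
    exact this.right ((hAs g hg).mono le_top)
  obtain ⟨β, hβ⟩ : ∃ β, ∀ q, q ≤ p → ∀ x, FMem (oc W x).1 A.1 q → Cond.Below β x := by
    have := Cond.small_below α
    have hb : ∀ r : {r : Cond // Cond.Below α r}, ∃ β, r.1 ≤ p →
        ∀ x, FMem (oc W x).1 A.1 r.1 → Cond.Below β x := by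
      intro r
      by_cases hr : r.1 ≤ p
      · obtain ⟨β, hβ⟩ := antichain_below {x | FMem (oc W x).1 A.1 r.1}
          fun x hx y hy => hanti' _ hr x y hx hy
        exact ⟨β, fun _ => hβ⟩
      · exact ⟨0, fun h => absurd h hr⟩
    choose b hb using hb
    obtain ⟨β, hβ⟩ := Ordinal.bddAbove_of_small (s := Set.range b)
    refine ⟨β, fun q hq x hx => ?_⟩
    refine (hb ⟨q.res α, q.below_res α⟩ (Cond.res_le hq hpb) x ?_).mono (hβ ⟨_, rfl⟩)
    exact FMem.of_dn (res_of_inv (fun _ _ => FMem.mono) (fun g hg => hinv g hg x) hx)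
  obtain ⟨a, e, he1, he2⟩ := exists_code β
  let Rel : Cond → NN → Cond → Prop := fun x n q => FMem (oc W x).1 A.1 q ∧
    q.f (a, n.down) = some (e x) ∧ ∀ m, m < n.down → ∃ c, q.f (a, m) = some c ∧ c ≠ e x
  have hJ : HS (relN W nlt Rel) := by
    refine hs_relN (max α (a + 1)) fun g hg x n q hq => ?_
    have ga : g a = 1 := hg a (lt_max_of_lt_right (lt_add_one a))
    have e1 : ∀ m, (g • q).f (a, m) = q.f (a, m) := fun m => by simp [Cond.smul_f, ga]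
    exact ⟨hinv g (hg.mono (le_max_left _ _)) x q hq.1, (e1 _).trans hq.2.1,
      fun m hm => e1 m ▸ hq.2.2 m hm⟩
  let J : HN := ⟨_, hJ⟩
  have hv : J.1 = relN W nlt Rel := rfl
  rw [frc_ex]
  refine Dn.of_all fun q hq => ⟨J, Frc.mono ?_ hq⟩
  simp only [frc_injF, cons_zero, cons_succ, h1, ← hA]
  refine ⟨frc_func_rel (f := 0) hv fun s t t' q1 q2 u r1 r2 _ hu1 hu2 => ?_,
    fun x u hu hx => ?_, fun x y u _ h => ?_, fun x x' y u hu r1 r2 => ?_⟩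
  · apply ULift.ext
    rcases lt_trichotomy t.down t'.down with h | h | h
    · obtain ⟨c, hc, hne⟩ := r2.2.2 _ h
      exact absurd (Cond.agree_of_le hu2 hu1 _ _ _ hc r1.2.1) hne
    · exact h
    · obtain ⟨c, hc, hne⟩ := r1.2.2 _ h
      exact absurd (Cond.agree_of_le hu1 hu2 _ _ _ hc r2.2.1) hne
  · refine (fmem_ocAll.1 (hsub x u hu hx)).imp fun u' hu' ⟨s, hs⟩ => ?_
    have hs' := (hx.mono hu').left hs
    obtain ⟨w, hw, n, h4⟩ := exists_least a (e s) (he1 s (hβ u' (hu'.trans hu) s hs')) u'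
    exact ⟨w, hw, oc nlt ⟨n⟩, (fapp_rel_of hv (s := s) (t := ⟨n⟩)
      ⟨hs'.mono hw, h4⟩ le_rfl).congr (FEq.refl _ _) (hs.symm.mono hw) (FEq.refl _ _)⟩
  · have := (fapp_rel hv).1 h
    exact ⟨FMem.of_dn (this.imp fun w _ ⟨s, t, q', r1, r2, r3, _⟩ =>
        ⟨w, le_rfl, (r1.1.mono r2).left r3.symm⟩),
      fmem_ocAll.2 (this.imp fun w _ ⟨s, t, q', _, _, _, r4⟩ => ⟨w, le_rfl, t, r4⟩)⟩
  · refine FEq.of_dn (((fapp_rel hv).1 r1).imp
      fun w hw ⟨s, t, q1, a1, a2, a3, a4⟩ => ?_)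
    obtain ⟨w', hw', s', t', q2, b1, b2, b3, b4⟩ := (fapp_rel hv).1 r2 w hw
    have e1 : t = t' := oc_inj ((a4.symm.mono hw').trans b4)
    subst e1
    have hwp := hw'.trans (hw.trans hu)
    have e2 : s = s' := he2 s s' (hβ w' hwp s (a1.1.mono (hw'.trans a2))) (hβ w' hwp s' (b1.1.mono b2))
      (Cond.agree_of_le (hw'.trans a2) b2 _ _ _ a1.2.1 b1.2.1)
    subst e2
    exact ⟨w', hw', (a3.mono hw').trans b3.symm⟩

lemma exists_big (α : Ordinal.{0}) : ∃ β : Ordinal.{0}, ∀ F : Ordinal.{0} → Cond × ℕ,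
    (∀ γ, γ < β → Cond.Below α (F γ).1) → ∃ γ γ', γ < β ∧ γ' < β ∧ γ ≠ γ' ∧ F γ = F γ' := by
  have := Cond.small_below α
  let S := Shrink.{0} ({p : Cond // Cond.Below α p} × ℕ)
  refine ⟨(Order.succ (Cardinal.mk S)).ord, fun F hF => ?_⟩
  by_contra hc
  push Not at hc
  let G : (Order.succ (Cardinal.mk S)).ord.ToType → S := fun i =>
    equivShrink _ (⟨(F (Ordinal.ToType.toOrd i).1).1, hF _ (Ordinal.ToType.toOrd i).2⟩,
      (F (Ordinal.ToType.toOrd i).1).2)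
  have hG : Function.Injective G := by
    intro i j h
    have h1 := Prod.mk.inj ((equivShrink _).injective h)
    by_contra hne
    refine hc _ _ (Ordinal.ToType.toOrd i).2 (Ordinal.ToType.toOrd j).2 (fun h2 => hne ?_)
      (Prod.ext (congrArg Subtype.val h1.1) h1.2)
    exact Ordinal.ToType.mk.symm.injective (Subtype.ext h2)
  have := Cardinal.mk_le_of_injective hG
  rw [Cardinal.mk_ord_toType] at this
  exact absurd this (not_le.2 (Order.lt_succ _))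

lemma frc_not_un {v : ℕ → HN} (h1 : v 0 = thN) (h2 : v 1 = XN) (h3 : v 2 = RN) (p : Cond) :
    ¬ Frc (unF 0 1 2) v p := by
  intro h
  obtain ⟨r, _, G, hG⟩ := (frc_ex.1 h).ex
  obtain ⟨hfun, hall⟩ := frc_and.1 hG
  have hfun' := (frc_funcF.1 hfun).2
  simp only [cons_zero] at hfun'
  obtain ⟨α1, hα1⟩ := G.supp
  obtain ⟨α2, hα2⟩ := r.exists_below
  set α := max α1 α2
  have hGs : Supp α G.1 := hα1.mono (le_max_left _ _)
  have hrb : Cond.Below α r := hα2.mono (le_max_right _ _)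
  obtain ⟨β, hβ⟩ := exists_big α
  let Rel : Cond → Ordinal.{0} → Cond → Prop := fun s b _ => s.f (β, 0) = some b ∧ b < β
  let f : HN := ⟨relN W olt Rel, hs_relN 0 fun _ _ _ _ _ h => h⟩
  have hv : f.1 = relN W olt Rel := rfl
  have hfs : Supp α f.1 := hv ▸ supp_relN α fun _ _ _ _ _ h => h
  let o : HN := oc olt β
  have hhom : Frc (homF 4 5 1) (cons o (cons f (cons G v))) r := by
    simp only [homF, frc_and, frc_all, frc_imp, frc_mem, frc_appF, frc_eq, cons_zero, cons_succ, h2]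
    refine ⟨frc_func_rel (f := 1) hv fun s t t' _ _ _ a1 a2 _ _ _ =>
      Option.some.inj (a1.1.symm.trans a2.1), fun x y q _ hxy => ?_,
      fun x y b b' q _ a1 q1 hq1 a2 q2 hq2 a3 => ?_⟩
    · have := (fapp_rel hv).1 hxy
      exact ⟨fmem_ocAll.2 (this.imp fun w _ ⟨s, _, _, _, _, r3, _⟩ => ⟨w, le_rfl, s, r3⟩),
        Frc.of_dn (this.imp fun w _ ⟨_, t, _, _, _, _, r4⟩ => ⟨w, le_rfl, frc_ord_oc r4⟩)⟩
    · refine FEq.of_dn (((fapp_rel hv).1 (a1.mono (hq2.trans hq1))).imp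
        fun w hw ⟨s, t, _, c1, _, c3, c4⟩ => ?_)
      obtain ⟨w', hw', s', t', _, d1, _, d3, d4⟩ := (fapp_rel hv).1 (a2.mono hq2) w hw
      obtain ⟨u, u1, u2⟩ := (frc_comp (by exact h2) (by exact h3) (c3.mono hw') d3).1
        (a3.mono (hw'.trans hw))
      have e1 : t = t' := Cond.agree_of_le u1 u2 _ _ _ c1.1 d1.1
      subst e1
      exact ⟨w', hw', (c4.mono hw').trans d4.symm⟩
  have hran : Frc (ranF 1 0) (cons o (cons f (cons G v))) r := by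
    simp only [ranF, frc_all, frc_iff, frc_ex, frc_mem, frc_appF, cons_zero, cons_succ]
    intro y q _
    constructor
    · intro hy
      refine (fmem_oc.1 hy).imp fun w _ ⟨b, hb, h4⟩ => ?_
      obtain ⟨s, _, hs⟩ := (⊤ : Cond).exists_ext (β, 0) b (le_of_lt hb) rfl
      exact ⟨w, le_rfl, oc W s, (fapp_rel_of hv (q := ⊤) ⟨hs, hb⟩ le_top).congr
        (FEq.refl _ _) (FEq.refl _ _) h4.symm⟩
    · intro hy
      refine fmem_oc.2 (hy.imp fun w _ ⟨x, hx⟩ => ?_)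
      obtain ⟨w', hw', s, t, _, c1, _, _, c4⟩ := ((fapp_rel hv).1 hx).ex
      exact ⟨w', hw', t, c1.2, c4⟩
  have H := frc_ex.1 (hall f o r le_rfl hhom r le_rfl (frc_ord_oc (FEq.refl _ _)) r le_rfl hran)
  simp only [frc_and, frc_appF, frc_injF, cons_zero, cons_succ, h1] at H
  let Ψ : Ordinal.{0} → ℕ → Cond → Prop := fun γ n u =>
    ∃ e, FApp G f e u ∧ FApp e (oc olt γ) (oc nlt ⟨n⟩) u
  have hΨ : ∀ γ, ∃ wn : Cond × ℕ, γ < β →
      Cond.Below α wn.1 ∧ wn.1 ≤ r ∧ Dn (Ψ γ wn.2) wn.1 := by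
    intro γ
    by_cases hγ : γ < β
    · obtain ⟨u, hu, e, a1, _, a2, a3, _⟩ := H.ex
      obtain ⟨u1, hu1, y, b1⟩ := (a2 (oc olt γ) u le_rfl (oc_mem_oc hγ u)).ex
      obtain ⟨u2, hu2, n, c1⟩ := (fmem_ocAll.1 (a3 _ _ u1 hu1 b1).2).ex
      refine ⟨(u2.res α, n.down), fun _ => ⟨u2.below_res α,
        Cond.res_le (hu2.trans (hu1.trans hu)) hrb, res_of_inv ?_ ?_ ⟨e, a1.mono (hu2.trans hu1),
          (b1.mono hu2).congr (FEq.refl _ _) (FEq.refl _ _) c1⟩⟩⟩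
      · rintro q q' ⟨e, d1, d2⟩ hq
        exact ⟨e, d1.mono hq, d2.mono hq⟩
      · rintro g hg q ⟨e, d1, d2⟩
        exact ⟨g • e, (d1.smul g).congr ((hGs g hg).mono le_top) ((hfs g hg).mono le_top)
          (FEq.refl _ _), (d2.smul g).congr (FEq.refl _ _) (by simp [FEq.refl])
            (by simp [FEq.refl])⟩
    · exact ⟨(⊤, 0), fun h => absurd h hγ⟩
  choose F hF using hΨ
  obtain ⟨γ, γ', g1, g2, hne, heq⟩ := hβ F fun γ hγ => (hF γ hγ).1
  obtain ⟨_, k1, k2⟩ := hF γ g1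
  obtain ⟨_, _, k3⟩ := hF γ' g2
  rw [← heq] at k3
  obtain ⟨u, hu, e0, a1, _, _, _, a4⟩ := H _ k1
  obtain ⟨u1, hu1, e, b1, b2⟩ := k2 u hu
  obtain ⟨u2, hu2, e', c1, c2⟩ := k3 u1 (hu1.trans hu)
  have hr2 : u2 ≤ r := hu2.trans (hu1.trans (hu.trans k1))
  have a1' := a1.mono (hu2.trans hu1)
  exact hne (oc_inj (a4 _ _ _ u2 (hu2.trans hu1)
    ((b2.mono hu2).congr (hfun' _ _ _ u2 hr2 (b1.mono hu2) a1') (FEq.refl _ _) (FEq.refl _ _))
    (c2.congr (hfun' _ _ _ u2 hr2 c1 a1') (FEq.refl _ _) (FEq.refl _ _))))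

variable {M : Type} {E : M → M → Prop}

lemma Sound.pair_ex (hE : Sound E) (a b : M) : ∃ z, IsPair E z a b := by
  have := hE (ex (pairF 0 1 2)) ?_ (cons a fun _ => b)
  · simpa using this
  · intro v
    rw [frc_ex]
    exact Dn.of_all fun q _ => ⟨pr (v 0) (v 1), frc_pairF.2 (FEq.refl _ _)⟩

lemma Sound.pair_inj (hE : Sound E) {z a b a' b' : M} (h : IsPair E z a b) (h' : IsPair E z a' b') :
    a = a' ∧ b = b' := by
  have := hE (imp (pairF 0 1 2) (imp (pairF 0 3 4) (and (eq 1 3) (eq 2 4)))) ?_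
    (cons z (cons a (cons b (cons a' fun _ => b'))))
  · simpa [h, h'] using this
  · intro v q _ h1 r hr h2
    rw [frc_pairF] at h1 h2
    exact frc_and.2 (pr_inj ((h1.symm.mono hr).trans h2))

lemma Sound.inj_comp (hE : Sound E) {e j a b c : M} (h1 : Inj E e a b) (h2 : Inj E j b c) :
    ∃ k, Inj E k a c := by
  obtain ⟨k, hk⟩ := hE.replF
    (ex (ex (ex (and (pairF 4 2 1) (and (appF 5 1 0) (pairF 3 2 0)))))) (fun _ => j) e (by
      intro x _ y y'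
      simp only [sat_ex, sat_and, sat_pairF, sat_appF, cons_zero, cons_succ]
      rintro ⟨s, t, n, a1, a2, a3⟩ ⟨s', t', n', b1, b2, b3⟩
      obtain ⟨rfl, rfl⟩ := hE.pair_inj a1 b1
      obtain rfl := h2.1.2 _ _ _ a2 b2
      exact hE.ext _ _ fun u => (a3 u).trans (b3 u).symm)
  simp only [sat_ex, sat_and, sat_pairF, sat_appF, cons_zero, cons_succ] at hk
  have key : ∀ x n, App E k x n ↔ ∃ t, App E e x t ∧ App E j t n := by
    intro x n
    constructor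
    · rintro ⟨z, hz, a1⟩
      obtain ⟨y, hy, s, t, m, b1, b2, b3⟩ := (hk z).1 hz
      obtain ⟨rfl, rfl⟩ := hE.pair_inj a1 b3
      exact ⟨t, ⟨y, hy, b1⟩, b2⟩
    · rintro ⟨t, ⟨y, hy, b1⟩, b2⟩
      obtain ⟨z, hz⟩ := hE.pair_ex x n
      exact ⟨z, (hk z).2 ⟨y, hy, x, t, n, b1, b2, hz⟩, hz⟩
  refine ⟨k, ⟨fun z hz => ?_, fun x y y' => ?_⟩, fun x hx => ?_, fun x y => ?_, fun x x' y => ?_⟩
  · obtain ⟨y, _, s, t, m, _, _, b3⟩ := (hk z).1 hz
    exact ⟨s, m, b3⟩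
  · rw [key, key]
    rintro ⟨t, a1, a2⟩ ⟨t', b1, b2⟩
    obtain rfl := h1.1.2 _ _ _ a1 b1
    exact h2.1.2 _ _ _ a2 b2
  · obtain ⟨t, ht⟩ := h1.2.1 x hx
    obtain ⟨n, hn⟩ := h2.2.1 t (h1.2.2.1 _ _ ht).2
    exact ⟨n, (key _ _).2 ⟨t, ht, hn⟩⟩
  · rw [key]
    rintro ⟨t, a1, a2⟩
    exact ⟨(h1.2.2.1 _ _ a1).1, (h2.2.2.1 _ _ a2).2⟩
  · rw [key, key]
    rintro ⟨t, a1, a2⟩ ⟨t', b1, b2⟩
    obtain rfl := h2.2.2.2 _ _ _ a2 b2
    exact h1.2.2.2 _ _ _ a1 b1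

theorem Sound.not_Q1 (hE : Sound E) (a : M) : ¬ Q1 E := by
  have := hE (ex (ex (ex (and (ordF 0) (and (limF 0) (and (poF 1 2) (and (ordF 1)
    (and (ex (bijF 0 2 2)) (and (all (imp (antiF 2 3 0) (ex (injF 0 1 2))))
      (not (unF 0 1 2))))))))))) ?_ (fun _ => a)
  · simp only [sat_ex, sat_and, sat_ordF, sat_limF, sat_poF, sat_bijF, sat_all, sat_imp, sat_antiF,
      sat_injF, sat_not, sat_unF, cons_zero, cons_succ] at this
    obtain ⟨R, X, θ, h1, h2, h3, h4, ⟨e, h5⟩, h6, h7⟩ := this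
    refine fun h => h7 (h θ X R ⟨h1, θ, Or.inl rfl, h2⟩ h3 ⟨X, e, h4, h5⟩ ?_)
    intro lam A b hl hA hb
    obtain ⟨j, hj⟩ := h6 A hA
    exact hl.2.1 (hE.inj_comp hb.1 hj)
  · intro v
    simp only [frc_ex, frc_and]
    refine Dn.of_all fun _ _ => ⟨RN, Dn.of_all fun _ _ => ⟨XN, Dn.of_all fun q _ => ⟨thN,
      frc_ord_all rfl, frc_lim rfl q, frc_po rfl rfl q, frc_ord_all rfl,
      frc_ex.1 (frc_wo (a := 1) rfl q), fun A r _ h => frc_anti rfl rfl rfl h,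
      fun r _ => frc_not_un rfl rfl rfl r⟩⟩⟩

theorem exists_counter : ∃ (M : Type) (E : M → M → Prop), IsZF E ∧ ¬ Q1 E := by
  obtain ⟨M, E, _, ⟨a⟩, h⟩ := exists_model
  have : Nonempty M := ⟨a⟩
  exact ⟨M, E, Sound.isZF h, Sound.not_Q1 h a⟩

end Pool.Agent.MP_637f9c_lc.H1
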