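import Pool.Agent.MP_637f9c_lc.H1.Cond

/-! Names, forced equality and membership, hereditarily symmetric names. -/

namespace Pool.Agent.MP_637f9c_lc.H1

/-- names for the collapse -/
inductive Nm : Type 2
  | mk (ι : Type 1) (A : ι → Nm) (c : ι → Cond) : Nm

namespace Nm

def I : Nm → Type 1
  | mk ι _ _ => ι

def A : (x : Nm) → x.I → Nm
  | mk _ A _ => A

def c : (x : Nm) → x.I → Cond
  | mk _ _ c => c

@[simp] lemma mk_I (ι : Type 1) (A : ι → Nm) (c : ι → Cond) : (mk ι A c).I = ι := rfl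
@[simp] lemma mk_A (ι : Type 1) (A : ι → Nm) (c : ι → Cond) (i : ι) : (mk ι A c).A i = A i := rfl
@[simp] lemma mk_c (ι : Type 1) (A : ι → Nm) (c : ι → Cond) (i : ι) : (mk ι A c).c i = c i := rfl

lemma ind {Φ : Nm → Prop} (h : ∀ x : Nm, (∀ i, Φ (x.A i)) → Φ x) (x : Nm) : Φ x := by
  induction x with
  | mk ι A c ih => exact h _ ih

end Nm

/-- `Φ` holds densely below `p` -/
def Dn (Φ : Cond → Prop) (p : Cond) : Prop := ∀ q, q ≤ p → ∃ r, r ≤ q ∧ Φ r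

lemma Dn.mono {Φ : Cond → Prop} {p q : Cond} (h : Dn Φ p) (hq : q ≤ p) : Dn Φ q :=
  fun r hr => h r (hr.trans hq)

lemma Dn.dn {Φ : Cond → Prop} {p : Cond} (h : Dn (Dn Φ) p) : Dn Φ p := by
  intro q hq
  obtain ⟨r, hr, h1⟩ := h q hq
  obtain ⟨s, hs, h2⟩ := h1 r le_rfl
  exact ⟨s, hs.trans hr, h2⟩

lemma Dn.ex {Φ : Cond → Prop} {p : Cond} (h : Dn Φ p) : ∃ r, r ≤ p ∧ Φ r := h p le_rfl

lemma Dn.imp {Φ Ψ : Cond → Prop} {p : Cond} (h : Dn Φ p)
    (hi : ∀ q, q ≤ p → Φ q → ∃ r, r ≤ q ∧ Ψ r) : Dn Ψ p := by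
  intro q hq
  obtain ⟨r, hr, h1⟩ := h q hq
  obtain ⟨s, hs, h2⟩ := hi r (hr.trans hq) h1
  exact ⟨s, hs.trans hr, h2⟩

lemma Dn.of_all {Φ : Cond → Prop} {p : Cond} (h : ∀ q, q ≤ p → Φ q) : Dn Φ p :=
  fun q hq => ⟨q, le_rfl, h q hq⟩

/-- forced equality -/
def FEq : Nm → Nm → Cond → Prop
  | .mk _ A c, .mk _ B d, p =>
    (∀ i q, q ≤ p → q ≤ c i → ∃ r, r ≤ q ∧ ∃ j, r ≤ d j ∧ FEq (A i) (B j) r) ∧
    (∀ j q, q ≤ p → q ≤ d j → ∃ r, r ≤ q ∧ ∃ i, r ≤ c i ∧ FEq (A i) (B j) r)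

lemma feq_def (x y : Nm) (p : Cond) : FEq x y p ↔
    (∀ i q, q ≤ p → q ≤ x.c i → ∃ r, r ≤ q ∧ ∃ j, r ≤ y.c j ∧ FEq (x.A i) (y.A j) r) ∧
    (∀ j q, q ≤ p → q ≤ y.c j → ∃ r, r ≤ q ∧ ∃ i, r ≤ x.c i ∧ FEq (x.A i) (y.A j) r) := by
  cases x; cases y; rfl

/-- forced membership -/
def FMem (y x : Nm) (p : Cond) : Prop := Dn (fun r => ∃ i, r ≤ x.c i ∧ FEq y (x.A i) r) p

lemma FEq.mono {x y : Nm} {p q : Cond} (h : FEq x y p) (hq : q ≤ p) : FEq x y q := by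
  rw [feq_def] at h ⊢
  exact ⟨fun i r hr => h.1 i r (hr.trans hq), fun i r hr => h.2 i r (hr.trans hq)⟩

lemma FEq.of_dn {x y : Nm} {p : Cond} (h : Dn (FEq x y) p) : FEq x y p := by
  rw [feq_def]
  constructor
  · intro i q hq hc
    obtain ⟨r, hr, h1⟩ := h q hq
    obtain ⟨s, hs, h2⟩ := ((feq_def _ _ _).1 h1).1 i r le_rfl (hr.trans hc)
    exact ⟨s, hs.trans hr, h2⟩
  · intro i q hq hc
    obtain ⟨r, hr, h1⟩ := h q hq
    obtain ⟨s, hs, h2⟩ := ((feq_def _ _ _).1 h1).2 i r le_rfl (hr.trans hc)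
    exact ⟨s, hs.trans hr, h2⟩

lemma FEq.refl (x : Nm) (p : Cond) : FEq x x p := by
  induction x using Nm.ind generalizing p with
  | h x ih =>
    rw [feq_def]
    exact ⟨fun i q _ hc => ⟨q, le_rfl, i, hc, ih i q⟩, fun i q _ hc => ⟨q, le_rfl, i, hc, ih i q⟩⟩

lemma FEq.symm {x y : Nm} {p : Cond} (h : FEq x y p) : FEq y x p := by
  induction x using Nm.ind generalizing y p with
  | h x ih =>
    rw [feq_def] at h ⊢
    constructor
    · intro j q hq hc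
      obtain ⟨r, hr, i, h1, h2⟩ := h.2 j q hq hc
      exact ⟨r, hr, i, h1, ih i h2⟩
    · intro i q hq hc
      obtain ⟨r, hr, j, h1, h2⟩ := h.1 i q hq hc
      exact ⟨r, hr, j, h1, ih i h2⟩

lemma FEq.trans {x y z : Nm} {p : Cond} (h : FEq x y p) (h' : FEq y z p) : FEq x z p := by
  induction x using Nm.ind generalizing y z p with
  | h x ih =>
    rw [feq_def] at h h' ⊢
    constructor
    · intro i q hq hc
      obtain ⟨r, hr, j, h1, h2⟩ := h.1 i q hq hc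
      obtain ⟨s, hs, k, h3, h4⟩ := h'.1 j r (hr.trans hq) h1
      exact ⟨s, hs.trans hr, k, h3, ih i (h2.mono hs) h4⟩
    · intro k q hq hc
      obtain ⟨r, hr, j, h1, h2⟩ := h'.2 k q hq hc
      obtain ⟨s, hs, i, h3, h4⟩ := h.2 j r (hr.trans hq) h1
      exact ⟨s, hs.trans hr, i, h3, ih i h4 (h2.mono hs)⟩

lemma FMem.mono {x y : Nm} {p q : Cond} (h : FMem x y p) (hq : q ≤ p) : FMem x y q :=
  Dn.mono h hq

lemma FMem.of_dn {x y : Nm} {p : Cond} (h : Dn (FMem x y) p) : FMem x y p := Dn.dn h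

lemma FMem.child {x : Nm} {p : Cond} (i : x.I) (h : p ≤ x.c i) : FMem (x.A i) x p :=
  Dn.of_all fun _ hq => ⟨i, hq.trans h, FEq.refl _ _⟩

lemma FMem.left {x x' y : Nm} {p : Cond} (h : FMem x y p) (e : FEq x x' p) : FMem x' y p :=
  Dn.imp h fun q hq ⟨i, h1, h2⟩ => ⟨q, le_rfl, i, h1, (e.mono hq).symm.trans h2⟩

lemma FMem.right {x y y' : Nm} {p : Cond} (h : FMem x y p) (e : FEq y y' p) : FMem x y' p := by
  refine Dn.imp h fun q hq ⟨i, h1, h2⟩ => ?_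
  obtain ⟨r, hr, j, h3, h4⟩ := ((feq_def _ _ _).1 e).1 i q hq h1
  exact ⟨r, hr, j, h3, (h2.mono hr).trans h4⟩

lemma feq_of_children {x y : Nm} {p : Cond}
    (h1 : ∀ i q, q ≤ p → q ≤ x.c i → FMem (x.A i) y q)
    (h2 : ∀ j q, q ≤ p → q ≤ y.c j → FMem (y.A j) x q) : FEq x y p := by
  rw [feq_def]
  refine ⟨fun i q hq hc => (h1 i q hq hc).ex, fun j q hq hc => ?_⟩
  obtain ⟨r, hr, i, h3, h4⟩ := (h2 j q hq hc).ex
  exact ⟨r, hr, i, h3, h4.symm⟩

/-- the action on names -/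
def act (g : Grp) : Nm → Nm
  | .mk ι A c => .mk ι (fun i => act g (A i)) (fun i => g • c i)

instance : SMul Grp Nm := ⟨act⟩

lemma smul_mk (g : Grp) (ι : Type 1) (A : ι → Nm) (c : ι → Cond) :
    g • Nm.mk ι A c = Nm.mk ι (fun i => g • A i) (fun i => g • c i) := rfl

instance : MulAction Grp Nm where
  one_smul x := by
    induction x with
    | mk ι A c ih => rw [smul_mk]; simp [ih]
  mul_smul g h x := by
    induction x with
    | mk ι A c ih => rw [smul_mk, smul_mk, smul_mk]; simp [ih, mul_smul]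

lemma FEq.smul {x y : Nm} {p : Cond} (g : Grp) (h : FEq x y p) : FEq (g • x) (g • y) (g • p) := by
  induction x generalizing y p with
  | mk ι A c ih =>
    cases y with
    | mk ι' B d =>
      rw [smul_mk, smul_mk]
      constructor
      · intro i q hq hc
        obtain ⟨r, hr, j, h1, h2⟩ :=
          h.1 i (g⁻¹ • q) ((Cond.le_smul_iff g).1 hq) ((Cond.le_smul_iff g).1 hc)
        exact ⟨g • r, (Cond.smul_le_iff' g).2 hr, j, Cond.smul_le g h1, ih i h2⟩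
      · intro j q hq hc
        obtain ⟨r, hr, i, h1, h2⟩ :=
          h.2 j (g⁻¹ • q) ((Cond.le_smul_iff g).1 hq) ((Cond.le_smul_iff g).1 hc)
        exact ⟨g • r, (Cond.smul_le_iff' g).2 hr, i, Cond.smul_le g h1, ih i h2⟩

lemma Dn.smul {Φ Ψ : Cond → Prop} {p : Cond} (g : Grp) (h : Dn Φ p)
    (hi : ∀ r, Φ r → Ψ (g • r)) : Dn Ψ (g • p) := by
  intro q hq
  obtain ⟨r, hr, h1⟩ := h (g⁻¹ • q) ((Cond.le_smul_iff g).1 hq)
  exact ⟨g • r, (Cond.smul_le_iff' g).2 hr, hi r h1⟩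

lemma FMem.smul {x y : Nm} {p : Cond} (g : Grp) (h : FMem x y p) :
    FMem (g • x) (g • y) (g • p) := by
  cases y with
  | mk ι B d =>
    exact Dn.smul g h fun r ⟨i, h1, h2⟩ => ⟨i, Cond.smul_le g h1, h2.smul g⟩

/-- `α` supports the name `x` -/
def Supp (α : Ordinal.{0}) (x : Nm) : Prop := ∀ g, Fix α g → FEq (g • x) x ⊤

lemma Supp.mono {α β : Ordinal.{0}} {x : Nm} (h : Supp α x) (hab : α ≤ β) : Supp β x :=
  fun g hg => h g (hg.mono hab)

lemma Supp.smul {α : Ordinal.{0}} {x : Nm} (h : Supp α x) (k : Grp) : Supp α (k • x) := by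
  intro g hg
  have := (h _ (hg.conj k)).smul k
  rwa [← mul_smul, ← mul_assoc, ← mul_assoc, mul_inv_cancel, one_mul, mul_smul] at this

lemma Supp.of_fix {x : Nm} (h : ∀ g : Grp, g • x = x) (α : Ordinal.{0}) : Supp α x :=
  fun g _ => by rw [h]; exact FEq.refl _ _

/-- hereditarily symmetric names -/
def HS : Nm → Prop
  | .mk ι A c => (∃ α, Supp α (.mk ι A c)) ∧ ∀ i, HS (A i)

lemma hs_def (x : Nm) : HS x ↔ (∃ α, Supp α x) ∧ ∀ i, HS (x.A i) := by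
  cases x; rfl

lemma HS.smul {x : Nm} (h : HS x) (g : Grp) : HS (g • x) := by
  induction x with
  | mk ι A c ih =>
    obtain ⟨⟨α, h1⟩, h2⟩ := h
    exact ⟨⟨α, h1.smul g⟩, fun i => ih i (h2 i)⟩

/-- the type of hereditarily symmetric names -/
def HN : Type 2 := {x : Nm // HS x}

namespace HN

def ch (x : HN) (i : x.1.I) : HN := ⟨x.1.A i, ((hs_def _).1 x.2).2 i⟩

@[simp] lemma ch_val (x : HN) (i : x.1.I) : (x.ch i).1 = x.1.A i := rfl

instance : SMul Grp HN := ⟨fun g x => ⟨g • x.1, x.2.smul g⟩⟩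

@[simp] lemma smul_val (g : Grp) (x : HN) : (g • x).1 = g • x.1 := rfl

instance : MulAction Grp HN where
  one_smul _ := Subtype.ext (one_smul _ _)
  mul_smul _ _ _ := Subtype.ext (mul_smul _ _ _)

lemma supp (x : HN) : ∃ α, Supp α x.1 := ((hs_def _).1 x.2).1

lemma ind {Φ : HN → Prop} (h : ∀ x : HN, (∀ i, Φ (x.ch i)) → Φ x) (x : HN) : Φ x := by
  obtain ⟨x, hx⟩ := x
  induction x using Nm.ind with
  | h x ih => exact h _ fun i => ih i _

end HN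

lemma feq_ext {x y : HN} {p : Cond}
    (h : ∀ (z : HN) q, q ≤ p → (FMem z.1 x.1 q ↔ FMem z.1 y.1 q)) : FEq x.1 y.1 p :=
  feq_of_children (fun i q hq hc => (h (x.ch i) q hq).1 (FMem.child i hc))
    (fun j q hq hc => (h (y.ch j) q hq).2 (FMem.child j hc))

lemma supp_seq (v : ℕ → HN) : ∃ α, ∀ i, Supp α (v i).1 := by
  choose a ha using fun i => (v i).supp
  obtain ⟨β, hβ⟩ := Ordinal.bddAbove_of_small (s := Set.range a)
  exact ⟨β, fun i => (ha i).mono (hβ ⟨i, rfl⟩)⟩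

/-- the name built from a family of names and a set of admissible conditions -/
def cname {ι : Type 1} (A : ι → HN) (S : ι → Cond → Prop) : Nm :=
  .mk {iq : ι × Cond // S iq.1 iq.2} (fun iq => (A iq.1.1).1) (fun iq => iq.1.2)

lemma fmem_cname {ι : Type 1} (A : ι → HN) (S : ι → Cond → Prop) (w : Nm) (p : Cond) :
    FMem w (cname A S) p ↔ Dn (fun r => ∃ i q, S i q ∧ r ≤ q ∧ FEq w (A i).1 r) p := by
  constructor
  · intro h
    exact Dn.imp h fun r _ ⟨i, h1, h2⟩ => ⟨r, le_rfl, i.1.1, i.1.2, i.2, h1, h2⟩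
  · intro h
    exact Dn.imp h fun r _ ⟨i, q, h1, h2, h3⟩ => ⟨r, le_rfl, ⟨(i, q), h1⟩, h2, h3⟩

lemma supp_of_inv {x : Nm} (hc : ∀ i, HS (x.A i)) (α : Ordinal.{0})
    (h : ∀ g, Fix α g → ∀ (w : HN) p, FMem w.1 x p → FMem (g • w.1) x (g • p)) : Supp α x := by
  intro g hg
  cases x with
  | mk ι A c =>
    apply feq_of_children
    · intro i q _ hq
      exact (h g hg ⟨A i, hc i⟩ (c i) (FMem.child (x := .mk ι A c) i le_rfl)).mono hq
    · intro i q _ hq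
      have h1 := h g⁻¹ hg.inv ⟨A i, hc i⟩ (c i) (FMem.child (x := .mk ι A c) i le_rfl)
      have h2 := h1.smul g
      simp only [smul_inv_smul] at h2
      exact h2.mono hq

/-- a name all of whose children are symmetric and whose membership predicate is invariant is
symmetric -/
lemma hs_of_inv {x : Nm} (hc : ∀ i, HS (x.A i)) (α : Ordinal.{0})
    (h : ∀ g, Fix α g → ∀ (w : HN) p, FMem w.1 x p → FMem (g • w.1) x (g • p)) : HS x :=
  (hs_def x).2 ⟨⟨α, supp_of_inv hc α h⟩, hc⟩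

/-- homogeneity: an invariant regular statement is decided by the restriction -/
lemma res_of_inv {Φ : Cond → Prop} {α : Ordinal.{0}} (hm : ∀ p q, Φ p → q ≤ p → Φ q)
    (hi : ∀ g, Fix α g → ∀ p, Φ p → Φ (g • p)) {p : Cond} (h : Φ p) : Dn Φ (p.res α) := by
  intro q hq
  obtain ⟨g, hg, r, h1, h2⟩ := homog α p q hq
  exact ⟨r, h1, hm _ _ (hi g hg p h) h2⟩

end Pool.Agent.MP_637f9c_lc.H1
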