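import Pool.Agent.MP_637f9c_lc.H1.ZF

/-! The notions of the problem as formulas, and what it means to force them. -/

namespace Pool.Agent.MP_637f9c_lc.H1

open Fml

def doubF (u x y : ℕ) : Fml := all (iff (mem 0 (u + 1)) (or (eq 0 (x + 1)) (eq 0 (y + 1))))

def pairF (z x y : ℕ) : Fml :=
  all (iff (mem 0 (z + 1)) (or (doubF 0 (x + 1) (x + 1)) (doubF 0 (x + 1) (y + 1))))

def appF (f x y : ℕ) : Fml := ex (and (mem 0 (f + 1)) (pairF 0 (x + 1) (y + 1)))

def funcF (f : ℕ) : Fml :=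
  and (all (imp (mem 0 (f + 1)) (ex (ex (pairF 2 1 0)))))
    (all (all (all (imp (appF (f + 3) 2 1) (imp (appF (f + 3) 2 0) (eq 1 0))))))

def injF (e a b : ℕ) : Fml :=
  and (funcF e) (and (all (imp (mem 0 (a + 1)) (ex (appF (e + 2) 1 0))))
    (and (all (all (imp (appF (e + 2) 1 0) (and (mem 1 (a + 2)) (mem 0 (b + 2))))))
      (all (all (all (imp (appF (e + 3) 2 0) (imp (appF (e + 3) 1 0) (eq 2 1))))))))

def bijF (e a b : ℕ) : Fml :=
  and (injF e a b) (all (imp (mem 0 (b + 1)) (ex (appF (e + 2) 0 1))))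

def ordF (a : ℕ) : Fml :=
  and (all (all (imp (mem 1 (a + 2)) (imp (mem 0 1) (mem 0 (a + 2))))))
    (all (all (imp (mem 1 (a + 2)) (imp (mem 0 (a + 2)) (or (mem 1 0) (or (eq 1 0) (mem 0 1)))))))

def limF (l : ℕ) : Fml :=
  and (ex (mem 0 (l + 1))) (all (imp (mem 0 (l + 1)) (ex (and (mem 0 (l + 2)) (mem 1 0)))))

def poF (X R : ℕ) : Fml :=
  and (all (imp (mem 0 (R + 1)) (ex (ex (and (mem 1 (X + 3)) (and (mem 0 (X + 3)) (pairF 2 1 0)))))))
    (and (all (imp (mem 0 (X + 1)) (appF (R + 1) 0 0)))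
      (and (all (all (imp (appF (R + 2) 1 0) (imp (appF (R + 2) 0 1) (eq 1 0)))))
        (all (all (all (imp (appF (R + 3) 2 1) (imp (appF (R + 3) 1 0) (appF (R + 3) 2 0))))))))

def compF (X R p q : ℕ) : Fml :=
  ex (and (mem 0 (X + 1)) (and (appF (R + 1) 0 (p + 1)) (appF (R + 1) 0 (q + 1))))

def antiF (X R A : ℕ) : Fml :=
  and (all (imp (mem 0 (A + 1)) (mem 0 (X + 1))))
    (all (all (imp (mem 1 (A + 2)) (imp (mem 0 (A + 2)) (imp (compF (X + 2) (R + 2) 1 0) (eq 1 0))))))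

def homF (X R f : ℕ) : Fml :=
  and (funcF f) (and (all (all (imp (appF (f + 2) 1 0) (and (mem 1 (X + 2)) (ordF 0)))))
    (all (all (all (all (imp (appF (f + 4) 3 1) (imp (appF (f + 4) 2 0)
      (imp (compF (X + 4) (R + 4) 3 2) (eq 1 0)))))))))

def ranF (f o : ℕ) : Fml := all (iff (mem 0 (o + 1)) (ex (appF (f + 2) 0 1)))

def unF (θ X R : ℕ) : Fml :=
  ex (and (funcF 0) (all (all (imp (homF (X + 3) (R + 3) 1) (imp (ordF 0) (imp (ranF 1 0)
    (ex (and (appF 3 2 0) (injF 0 1 (θ + 4))))))))))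

section sat

variable {M : Type} {E : M → M → Prop} {v : ℕ → M}

@[simp] lemma sat_doubF {u x y : ℕ} : Sat E (doubF u x y) v ↔ IsDoub E (v u) (v x) (v y) := by
  simp [doubF, IsDoub]

@[simp] lemma sat_pairF {z x y : ℕ} : Sat E (pairF z x y) v ↔ IsPair E (v z) (v x) (v y) := by
  simp [pairF, IsPair]

@[simp] lemma sat_appF {f x y : ℕ} : Sat E (appF f x y) v ↔ App E (v f) (v x) (v y) := by
  simp [appF, App]

@[simp] lemma sat_funcF {f : ℕ} : Sat E (funcF f) v ↔ IsFunc E (v f) := by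
  simp [funcF, IsFunc]

@[simp] lemma sat_injF {e a b : ℕ} : Sat E (injF e a b) v ↔ Inj E (v e) (v a) (v b) := by
  simp [injF, Inj]

@[simp] lemma sat_bijF {e a b : ℕ} : Sat E (bijF e a b) v ↔ Bij E (v e) (v a) (v b) := by
  simp [bijF, Bij]

@[simp] lemma sat_ordF {a : ℕ} : Sat E (ordF a) v ↔ IsOrd E (v a) := by
  simp [ordF, IsOrd]

@[simp] lemma sat_limF {a : ℕ} : Sat E (limF a) v ↔ IsLim E (v a) := by
  simp [limF, IsLim]

@[simp] lemma sat_poF {X R : ℕ} : Sat E (poF X R) v ↔ IsPO E (v X) (v R) := by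
  simp [poF, IsPO]

@[simp] lemma sat_compF {X R p q : ℕ} :
    Sat E (compF X R p q) v ↔ Compat E (v X) (v R) (v p) (v q) := by
  simp [compF, Compat]

@[simp] lemma sat_antiF {X R A : ℕ} : Sat E (antiF X R A) v ↔ IsAnti E (v X) (v R) (v A) := by
  simp [antiF, IsAnti]

@[simp] lemma sat_homF {X R f : ℕ} : Sat E (homF X R f) v ↔ IsHom E (v X) (v R) (v f) := by
  simp [homF, IsHom]

@[simp] lemma sat_ranF {f o : ℕ} : Sat E (ranF f o) v ↔ IsRan E (v f) (v o) := by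
  simp [ranF, IsRan]

@[simp] lemma sat_unF {θ X R : ℕ} : Sat E (unF θ X R) v ↔ UnifNarrow E (v θ) (v X) (v R) := by
  simp [unF, UnifNarrow]

end sat

/-- the name of an unordered pair -/
def dbN (x y : Nm) : Nm := .mk (ULift Bool) (fun i => if i.down then x else y) fun _ => ⊤

lemma smul_dbN (g : Grp) (x y : Nm) : g • dbN x y = dbN (g • x) (g • y) := by
  rw [dbN, smul_mk, dbN]
  congr 1
  funext i
  split_ifs <;> rfl

lemma fmem_dbN {w x y : Nm} {p : Cond} :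
    FMem w (dbN x y) p ↔ Dn (fun q => FEq w x q ∨ FEq w y q) p := by
  constructor
  · intro h
    refine h.imp fun q _ ⟨⟨i⟩, _, h1⟩ => ⟨q, le_rfl, ?_⟩
    cases i
    · exact Or.inr h1
    · exact Or.inl h1
  · intro h
    refine h.imp fun q _ h1 => ⟨q, le_rfl, ?_⟩
    rcases h1 with h1 | h1
    · exact ⟨⟨true⟩, le_top, h1⟩
    · exact ⟨⟨false⟩, le_top, h1⟩

lemma dbN_left (x y : Nm) (p : Cond) : FMem x (dbN x y) p :=
  fmem_dbN.2 (Dn.of_all fun _ _ => Or.inl (FEq.refl _ _))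

lemma dbN_right (x y : Nm) (p : Cond) : FMem y (dbN x y) p :=
  fmem_dbN.2 (Dn.of_all fun _ _ => Or.inr (FEq.refl _ _))

lemma dbN_congr {x y x' y' : Nm} {p : Cond} (h1 : FEq x x' p) (h2 : FEq y y' p) :
    FEq (dbN x y) (dbN x' y') p := by
  apply feq_of_children
  · rintro ⟨i⟩ q hq _
    cases i
    · exact (dbN_right x' y' q).left (h2.symm.mono hq)
    · exact (dbN_left x' y' q).left (h1.symm.mono hq)
  · rintro ⟨i⟩ q hq _
    cases i
    · exact (dbN_right x y q).left (h2.mono hq)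
    · exact (dbN_left x y q).left (h1.mono hq)

lemma hs_dbN {x y : Nm} (hx : HS x) (hy : HS y) : HS (dbN x y) := by
  obtain ⟨a, ha⟩ := ((hs_def _).1 hx).1
  obtain ⟨b, hb⟩ := ((hs_def _).1 hy).1
  refine ⟨⟨max a b, fun g hg => ?_⟩, fun ⟨i⟩ => ?_⟩
  · change FEq (g • dbN x y) (dbN x y) ⊤
    rw [smul_dbN]
    exact dbN_congr (ha g (hg.mono (le_max_left _ _))) (hb g (hg.mono (le_max_right _ _)))
  · cases i
    · exact hy
    · exact hx

def db (x y : HN) : HN := ⟨dbN x.1 y.1, hs_dbN x.2 y.2⟩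

/-- the name of an ordered pair -/
def pr (x y : HN) : HN := db (db x x) (db x y)

lemma smul_pr (g : Grp) (x y : HN) : g • (pr x y).1 = (pr (g • x) (g • y)).1 := by
  simp [pr, db, smul_dbN]

lemma pr_congr {x y x' y' : HN} {p : Cond} (h1 : FEq x.1 x'.1 p) (h2 : FEq y.1 y'.1 p) :
    FEq (pr x y).1 (pr x' y').1 p := dbN_congr (dbN_congr h1 h1) (dbN_congr h1 h2)

lemma dbN_sing {w x : Nm} {p : Cond} (h : FMem w (dbN x x) p) : FEq w x p :=
  FEq.of_dn ((fmem_dbN.1 h).imp fun q _ h1 => ⟨q, le_rfl, h1.elim id id⟩)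

lemma dbN_cancel {x y y' : Nm} {p : Cond} (h : FEq (dbN x y) (dbN x y') p) : FEq y y' p := by
  refine FEq.of_dn ((fmem_dbN.1 ((dbN_right x y p).right h)).imp fun q hq h1 => ?_)
  rcases h1 with h1 | h1
  · refine ⟨q, le_rfl, FEq.of_dn
      ((fmem_dbN.1 ((dbN_right x y' q).right (h.symm.mono hq))).imp fun r hr h2 => ⟨r, le_rfl, ?_⟩)⟩
    rcases h2 with h2 | h2
    · exact (h1.mono hr).trans h2.symm
    · exact h2.symm
  · exact ⟨q, le_rfl, h1⟩

lemma pr_inj {x y x' y' : HN} {p : Cond} (h : FEq (pr x y).1 (pr x' y').1 p) :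
    FEq x.1 x'.1 p ∧ FEq y.1 y'.1 p := by
  have h1 : FEq x.1 x'.1 p := by
    refine FEq.of_dn ((fmem_dbN.1 ((dbN_left _ _ p).right h)).imp fun q _ h1 => ⟨q, le_rfl, ?_⟩)
    rcases h1 with h1 | h1
    · exact (dbN_sing ((dbN_left _ _ q).right h1.symm)).symm
    · exact (dbN_sing ((dbN_left _ _ q).right h1.symm)).symm
  refine ⟨h1, dbN_cancel (x := x.1) (dbN_cancel (x := dbN x.1 x.1) ?_)⟩
  exact h.trans (pr_congr h1.symm (FEq.refl _ _))

/-- forced: the pair of `x` and `y` lies in `f` -/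
def FApp (f x y : HN) (p : Cond) : Prop := FMem (pr x y).1 f.1 p

lemma FApp.mono {f x y : HN} {p q : Cond} (h : FApp f x y p) (hq : q ≤ p) : FApp f x y q :=
  FMem.mono h hq

lemma FApp.congr {f x y f' x' y' : HN} {p : Cond} (h : FApp f x y p) (h0 : FEq f.1 f'.1 p)
    (h1 : FEq x.1 x'.1 p) (h2 : FEq y.1 y'.1 p) : FApp f' x' y' p :=
  (FMem.left h (pr_congr h1 h2)).right h0

lemma FApp.smul {f x y : HN} {p : Cond} (g : Grp) (h : FApp f x y p) :
    FApp (g • f) (g • x) (g • y) (g • p) := by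
  have := FMem.smul g h
  rwa [smul_pr] at this

section frc

variable {v : ℕ → HN} {p : Cond}

@[simp] lemma frc_doubF {u x y : ℕ} :
    Frc (doubF u x y) v p ↔ FEq (v u).1 (db (v x) (v y)).1 p := by
  simp only [doubF, frc_all, frc_iff, frc_mem, frc_or, frc_eq, cons_zero, cons_succ]
  constructor
  · intro h
    exact feq_ext fun z q hq => (h z q hq).trans fmem_dbN.symm
  · intro h z q hq
    rw [← fmem_dbN]
    exact ⟨fun h1 => h1.right (h.mono hq), fun h1 => h1.right (h.symm.mono hq)⟩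

@[simp] lemma frc_pairF {z x y : ℕ} :
    Frc (pairF z x y) v p ↔ FEq (v z).1 (pr (v x) (v y)).1 p := by
  simp only [pairF, frc_all, frc_iff, frc_mem, frc_or, frc_doubF, cons_zero, cons_succ]
  constructor
  · intro h
    exact feq_ext fun z q hq => (h z q hq).trans fmem_dbN.symm
  · intro h z q hq
    rw [← fmem_dbN]
    exact ⟨fun h1 => h1.right (h.mono hq), fun h1 => h1.right (h.symm.mono hq)⟩

@[simp] lemma frc_appF {f x y : ℕ} : Frc (appF f x y) v p ↔ FApp (v f) (v x) (v y) p := by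
  simp only [appF, frc_ex, frc_and, frc_mem, frc_pairF, cons_zero, cons_succ]
  constructor
  · intro h
    exact FMem.of_dn (h.imp fun q _ ⟨z, h1, h2⟩ => ⟨q, le_rfl, h1.left h2⟩)
  · intro h
    exact Dn.of_all fun q hq => ⟨pr (v x) (v y), h.mono hq, FEq.refl _ _⟩

lemma frc_funcF {f : ℕ} : Frc (funcF f) v p ↔
    (∀ (z : HN) q, q ≤ p → FMem z.1 (v f).1 q → Dn (fun r => ∃ x y, FEq z.1 (pr x y).1 r) q) ∧
    ∀ x y y' q, q ≤ p → FApp (v f) x y q → FApp (v f) x y' q → FEq y.1 y'.1 q := by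
  simp only [funcF, frc_and, frc_all, frc_imp, frc_ex, frc_mem, frc_pairF, frc_appF, frc_eq,
    cons_zero, cons_succ]
  refine and_congr (forall_congr' fun z => forall_congr' fun q => forall_congr' fun _ =>
    forall_congr' fun _ => ⟨fun h => h.imp fun r _ ⟨x, h1⟩ => ?_, fun h => h.imp fun r _ ⟨x, y, h1⟩ =>
      ⟨r, le_rfl, x, Dn.of_all fun s hs => ⟨y, h1.mono hs⟩⟩⟩) ⟨fun h x y y' q hq h1 h2 =>
        h x y y' q hq h1 q le_rfl h2, fun h x y y' q hq h1 r hr h2 =>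
          h x y y' r (hr.trans hq) (h1.mono hr) h2⟩
  obtain ⟨s, hs, y, h2⟩ := h1.ex
  exact ⟨s, hs, x, y, h2⟩

lemma frc_injF {e a b : ℕ} : Frc (injF e a b) v p ↔ Frc (funcF e) v p ∧
    (∀ (x : HN) q, q ≤ p → FMem x.1 (v a).1 q → Dn (fun r => ∃ y, FApp (v e) x y r) q) ∧
    (∀ (x y : HN) q, q ≤ p → FApp (v e) x y q → FMem x.1 (v a).1 q ∧ FMem y.1 (v b).1 q) ∧
    ∀ x x' y q, q ≤ p → FApp (v e) x y q → FApp (v e) x' y q → FEq x.1 x'.1 q := by
  simp only [injF, frc_and, frc_all, frc_imp, frc_ex, frc_mem, frc_appF, frc_eq,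
    cons_zero, cons_succ]
  exact and_congr Iff.rfl (and_congr Iff.rfl (and_congr Iff.rfl
    ⟨fun h x y y' q hq h1 h2 => h x y y' q hq h1 q le_rfl h2,
      fun h x y y' q hq h1 r hr h2 => h x y y' r (hr.trans hq) (h1.mono hr) h2⟩))

lemma frc_compF {X R x y : ℕ} : Frc (compF X R x y) v p ↔
    Dn (fun r => ∃ z : HN, FMem z.1 (v X).1 r ∧ FApp (v R) z (v x) r ∧ FApp (v R) z (v y) r) p := by
  simp only [compF, frc_and, frc_ex, frc_mem, frc_appF, cons_zero, cons_succ]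

lemma frc_ordF_congr {a : ℕ} {w : ℕ → HN} {b : ℕ} (h : FEq (v a).1 (w b).1 p)
    (h1 : Frc (ordF a) v p) : Frc (ordF b) w p := by
  simp only [ordF, frc_and, frc_all, frc_imp, frc_mem, frc_or, frc_eq,
    cons_zero, cons_succ] at h1 ⊢
  exact ⟨fun x y q hq h2 r hr h3 => (h1.1 x y q hq (h2.right (h.symm.mono hq)) r hr h3).right
      (h.mono (hr.trans hq)),
    fun x y q hq h2 r hr h3 => h1.2 x y q hq (h2.right (h.symm.mono hq)) r hr
      (h3.right (h.symm.mono (hr.trans hq)))⟩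

end frc

section ord

variable {T : Type 1} {r : T → T → Prop} [IsWellOrder T r]

lemma frc_ord_of {v : ℕ → HN} {a : ℕ} {p : Cond} (S : T → Prop) (hS : ∀ s t, r s t → S t → S s)
    (h : ∀ w q, FMem w (v a).1 q ↔ Dn (fun q => ∃ s, S s ∧ FEq w (oc r s).1 q) q) :
    Frc (ordF a) v p := by
  simp only [ordF, frc_and, frc_all, frc_imp, frc_mem, frc_or, frc_eq,
    cons_zero, cons_succ, h]
  constructor
  · intro x y q _ h1 q' hq' h2
    refine Dn.dn ((h1.mono hq').imp fun u hu ⟨s, hs, h3⟩ => ⟨u, le_rfl, ?_⟩)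
    exact (fmem_oc.1 ((h2.mono hu).right h3)).imp fun u' _ ⟨t, ht, h4⟩ =>
      ⟨u', le_rfl, t, hS _ _ ht hs, h4⟩
  · intro x y q _ h1 q' hq' h2
    refine (h1.mono hq').imp fun u hu ⟨s, _, h3⟩ => ?_
    obtain ⟨u', hu', t, _, h4⟩ := h2 u hu
    refine ⟨u', hu', ?_⟩
    rcases trichotomous_of r s t with h5 | h5 | h5
    · exact Or.inl (((oc_mem_oc h5 u').left (h3.symm.mono hu')).right h4.symm)
    · exact Or.inr (Dn.of_all fun u'' hu'' => Or.inl
        (((h3.mono hu').trans (h5 ▸ h4.symm)).mono hu''))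
    · exact Or.inr (Dn.of_all fun u'' hu'' => Or.inr
        ((((oc_mem_oc h5 u').left h4.symm).right (h3.symm.mono hu')).mono hu''))

lemma frc_ord_oc {v : ℕ → HN} {a : ℕ} {p : Cond} {t : T} (h : FEq (v a).1 (oc r t).1 p) :
    Frc (ordF a) v p :=
  frc_ordF_congr (v := fun _ => oc r t) (a := 0) h.symm
    (frc_ord_of (r := r) (fun s => r s t) (fun _ _ h1 h2 => trans_of r h1 h2) fun _ _ => fmem_oc)

lemma frc_ord_all {v : ℕ → HN} {a : ℕ} {p : Cond} (h : v a = ocAll r) : Frc (ordF a) v p :=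
  frc_ord_of (r := r) (fun _ => True) (fun _ _ _ _ => trivial) fun _ _ => by
    simp only [h, true_and]; exact fmem_ocAll

variable {T' : Type 1} (r) (r' : T' → T' → Prop) [IsWellOrder T' r']

/-- the name of a relation between two well-orders, switched on by conditions -/
noncomputable def relN (R : T → T' → Cond → Prop) : Nm :=
  cname (fun st : T × T' => pr (oc r st.1) (oc r' st.2)) fun st q => R st.1 st.2 q

variable {r r'}

lemma fmem_relN {R : T → T' → Cond → Prop} {w : Nm} {p : Cond} :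
    FMem w (relN r r' R) p ↔
      Dn (fun q => ∃ s t q', R s t q' ∧ q ≤ q' ∧ FEq w (pr (oc r s) (oc r' t)).1 q) p := by
  rw [relN, fmem_cname]
  exact ⟨fun h => h.imp fun q _ ⟨st, h1⟩ => ⟨q, le_rfl, st.1, st.2, h1⟩,
    fun h => h.imp fun q _ ⟨s, t, h1⟩ => ⟨q, le_rfl, (s, t), h1⟩⟩

lemma supp_relN {R : T → T' → Cond → Prop} (α : Ordinal.{0})
    (h : ∀ g, Fix α g → ∀ s t q, R s t q → R s t (g • q)) : Supp α (relN r r' R) := by
  refine supp_of_inv (x := relN r r' R) (fun i => (pr _ _).2) α fun g hg w p h1 => ?_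
  rw [fmem_relN] at h1 ⊢
  refine h1.smul g fun q ⟨s, t, q', h2, h3, h4⟩ => ⟨s, t, g • q', h g hg _ _ _ h2,
    Cond.smul_le g h3, ?_⟩
  have := h4.smul g
  rw [smul_pr] at this
  exact this.trans (pr_congr (by simp [FEq.refl]) (by simp [FEq.refl]))

lemma hs_relN {R : T → T' → Cond → Prop} (α : Ordinal.{0})
    (h : ∀ g, Fix α g → ∀ s t q, R s t q → R s t (g • q)) : HS (relN r r' R) :=
  (hs_def _).2 ⟨⟨α, supp_relN α h⟩, fun _ => (pr _ _).2⟩

lemma fapp_rel {R : T → T' → Cond → Prop} {f x y : HN} (hf : f.1 = relN r r' R) {p : Cond} :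
    FApp f x y p ↔
      Dn (fun q => ∃ s t q', R s t q' ∧ q ≤ q' ∧ FEq x.1 (oc r s).1 q ∧ FEq y.1 (oc r' t).1 q) p := by
  rw [FApp, hf, fmem_relN]
  exact ⟨fun h => h.imp fun q _ ⟨s, t, q', h1, h2, h3⟩ => ⟨q, le_rfl, s, t, q', h1, h2, pr_inj h3⟩,
    fun h => h.imp fun q _ ⟨s, t, q', h1, h2, h3⟩ =>
      ⟨q, le_rfl, s, t, q', h1, h2, pr_congr h3.1 h3.2⟩⟩

lemma fapp_rel_of {R : T → T' → Cond → Prop} {f : HN} (hf : f.1 = relN r r' R) {p q : Cond}
    {s : T} {t : T'} (h : R s t q) (hp : p ≤ q) : FApp f (oc r s) (oc r' t) p :=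
  (fapp_rel hf).2 (Dn.of_all fun _ hu => ⟨s, t, q, h, hu.trans hp, FEq.refl _ _, FEq.refl _ _⟩)

lemma frc_func_rel {R : T → T' → Cond → Prop} {v : ℕ → HN} {f : ℕ} (hf : (v f).1 = relN r r' R)
    {p : Cond} (h : ∀ s t t' q q' u, R s t q → R s t' q' → u ≤ p → u ≤ q → u ≤ q' → t = t') :
    Frc (funcF f) v p := by
  rw [frc_funcF]
  constructor
  · intro z q _ hz
    rw [hf, fmem_relN] at hz
    exact hz.imp fun u _ ⟨s, t, _, _, _, h1⟩ => ⟨u, le_rfl, _, _, h1⟩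
  · intro x y y' q hq h1 h2
    refine FEq.of_dn (((fapp_rel hf).1 h1).imp fun u hu ⟨s, t, q1, h3, h4, h5, h6⟩ => ?_)
    obtain ⟨u', hu', s', t', q2, h3', h4', h5', h6'⟩ := (fapp_rel hf).1 h2 u hu
    have e1 : s = s' := oc_inj ((h5.symm.mono hu').trans h5')
    subst e1
    have e2 := h s t t' q1 q2 u' h3 h3' (hu'.trans (hu.trans hq)) (hu'.trans h4) h4'
    subst e2
    exact ⟨u', hu', (h6.mono hu').trans h6'.symm⟩

end ord

end Pool.Agent.MP_637f9c_lc.H1
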