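import Pool.Agent.MP_637f9c_lc.H1.Henkin
import Pool.Agent.MP_637f9c_lc.H1.Defs

/-! Comprehension for names; the ZF axioms hold in every sound model. -/

namespace Pool.Agent.MP_637f9c_lc.H1

open FirstOrder

/-- the names forced to satisfy `φ` are covered by a set-sized family -/
def Covered (φ : Fml) (v : ℕ → HN) {ι : Type 1} (A : ι → HN) : Prop :=
  ∀ w p, Frc φ (cons w v) p → ∃ q, q ≤ p ∧ ∃ i, FEq w.1 (A i).1 q

lemma compr_mem {φ : Fml} {v : ℕ → HN} {ι : Type 1} {A : ι → HN} (h : Covered φ v A) (w : HN)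
    (p : Cond) :
    FMem w.1 (cname A fun i q => Frc φ (cons (A i) v) q) p ↔ Frc φ (cons w v) p := by
  rw [fmem_cname]
  constructor
  · intro h1
    exact Frc.of_dn (h1.imp fun r _ ⟨i, q, h2, h3, h4⟩ =>
      ⟨r, le_rfl, (h2.mono h3).congr0 h4.symm⟩)
  · intro h1 q hq
    obtain ⟨r, hr, i, h2⟩ := h w q (h1.mono hq)
    exact ⟨r, hr, i, r, (h1.mono (hr.trans hq)).congr0 h2, le_rfl, h2⟩

lemma compr_hs {φ : Fml} {v : ℕ → HN} {ι : Type 1} {A : ι → HN} (h : Covered φ v A) :
    HS (cname A fun i q => Frc φ (cons (A i) v) q) := by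
  obtain ⟨α, hα⟩ := supp_seq v
  refine hs_of_inv (fun i => (A i.1.1).2) α fun g hg w p h1 => ?_
  exact (compr_mem h (g • w) _).2 (((compr_mem h w p).1 h1).inv hα hg)

/-- every formula forced by the trivial condition holds in `(M, E)` -/
def Sound {M : Type} (E : M → M → Prop) : Prop :=
  ∀ φ : Fml, (∀ v, Frc φ v ⊤) → ∀ w, Sat E φ w

lemma Sound.compr {M : Type} {E : M → M → Prop} (hE : Sound E) (φ : Fml)
    (h : ∀ v, ∃ (ι : Type 1) (A : ι → HN), Covered φ v A) (w : ℕ → M) :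
    ∃ b, ∀ x, E x b ↔ Sat E φ (cons x w) := by
  have e : ∀ {α : Type 2} (x b : α) (v : ℕ → α),
      cons x (cons b v) ∘ cons 0 (fun n => n + 2) = cons x v := by
    intro α x b v; funext n; cases n <;> rfl
  have e' : ∀ {α : Type} (x b : α) (v : ℕ → α),
      cons x (cons b v) ∘ cons 0 (fun n => n + 2) = cons x v := by
    intro α x b v; funext n; cases n <;> rfl
  have := hE (.ex (.all (.iff (.mem 0 1) (φ.ren (cons 0 fun n => n + 2))))) ?_ w
  · simpa [sat_ren, e'] using this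
  · intro v
    obtain ⟨ι, A, hA⟩ := h v
    rw [frc_ex]
    refine Dn.of_all fun q _ => ⟨⟨_, compr_hs hA⟩, fun x => ?_⟩
    rw [frc_iff]
    intro r _
    rw [frc_ren, e]
    exact compr_mem hA x r

lemma covered_of_mem {φ : Fml} {v : ℕ → HN} (a : HN)
    (h : ∀ w p, Frc φ (cons w v) p → FMem w.1 a.1 p) : Covered φ v a.ch := by
  intro w p h1
  obtain ⟨q, hq, i, _, h2⟩ := (h w p h1).ex
  exact ⟨q, hq, i, h2⟩

section ord

variable {T : Type 1} (r : T → T → Prop) [IsWellOrder T r]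

/-- the name of the ordinal collapsing an element of a well-order -/
noncomputable def ochk : T → Nm :=
  (IsWellFounded.wf (r := r)).fix fun t ih => .mk {s // r s t} (fun s => ih s.1 s.2) fun _ => ⊤

lemma ochk_eq (t : T) : ochk r t = .mk {s // r s t} (fun s => ochk r s.1) fun _ => ⊤ :=
  WellFounded.fix_eq _ _ _

lemma smul_ochk (g : Grp) (t : T) : g • ochk r t = ochk r t := by
  induction t using (IsWellFounded.wf (r := r)).induction with
  | _ t ih =>
    rw [ochk_eq, smul_mk]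
    congr 1
    funext s
    exact ih s.1 s.2

lemma hs_ochk (t : T) : HS (ochk r t) := by
  induction t using (IsWellFounded.wf (r := r)).induction with
  | _ t ih =>
    have := Supp.of_fix (fun g => smul_ochk r g t) 0
    rw [ochk_eq] at this ⊢
    exact ⟨⟨0, this⟩, fun s => ih s.1 s.2⟩

/-- the symmetric name of an ordinal -/
noncomputable def oc (t : T) : HN := ⟨ochk r t, hs_ochk r t⟩

@[simp] lemma smul_oc (g : Grp) (t : T) : g • (oc r t).1 = (oc r t).1 := smul_ochk r g t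

/-- the name of the order type of the well-order -/
noncomputable def ocAll : HN := ⟨.mk T (ochk r) fun _ => ⊤,
  ⟨0, Supp.of_fix (fun g => by rw [smul_mk]; simp [smul_ochk]) 0⟩, hs_ochk r⟩

@[simp] lemma smul_ocAll (g : Grp) : g • (ocAll r).1 = (ocAll r).1 := by
  simp [ocAll, smul_mk, smul_ochk]

variable {r}

lemma fmem_oc {w : Nm} {t : T} {p : Cond} :
    FMem w (oc r t).1 p ↔ Dn (fun q => ∃ s, r s t ∧ FEq w (oc r s).1 q) p := by
  simp only [oc]
  rw [ochk_eq]
  exact ⟨fun h => h.imp fun q _ ⟨s, _, h1⟩ => ⟨q, le_rfl, s.1, s.2, h1⟩,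
    fun h => h.imp fun q _ ⟨s, h0, h1⟩ => ⟨q, le_rfl, ⟨s, h0⟩, le_top, h1⟩⟩

lemma fmem_ocAll {w : Nm} {p : Cond} :
    FMem w (ocAll r).1 p ↔ Dn (fun q => ∃ s, FEq w (oc r s).1 q) p :=
  ⟨fun h => h.imp fun q _ ⟨s, _, h1⟩ => ⟨q, le_rfl, s, h1⟩,
    fun h => h.imp fun q _ ⟨s, h1⟩ => ⟨q, le_rfl, s, le_top, h1⟩⟩

lemma oc_mem_oc {s t : T} (h : r s t) (p : Cond) : FMem (oc r s).1 (oc r t).1 p :=
  fmem_oc.2 (Dn.of_all fun _ _ => ⟨s, h, FEq.refl _ _⟩)

lemma oc_mem_all (s : T) (p : Cond) : FMem (oc r s).1 (ocAll r).1 p :=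
  fmem_ocAll.2 (Dn.of_all fun _ _ => ⟨s, FEq.refl _ _⟩)

lemma oc_inj {s t : T} {p : Cond} (h : FEq (oc r s).1 (oc r t).1 p) : s = t := by
  induction s using (IsWellFounded.wf (r := r)).induction generalizing t p with
  | _ s ih =>
    rcases trichotomous_of r s t with h1 | h1 | h1
    · obtain ⟨q, _, u, hu, h2⟩ := (fmem_oc.1 ((oc_mem_oc h1 p).right h.symm)).ex
      have := ih u hu h2.symm
      rw [this] at hu
      exact absurd hu (irrefl_of r s)
    · exact h1
    · obtain ⟨q, _, u, hu, h2⟩ := (fmem_oc.1 ((oc_mem_oc h1 p).right h)).ex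
      have h3 := ih t h1 h2
      rw [← h3] at hu
      exact absurd hu (irrefl_of r t)

lemma oc_mem_iff {s t : T} {p : Cond} : FMem (oc r s).1 (oc r t).1 p ↔ r s t := by
  refine ⟨fun h => ?_, fun h => oc_mem_oc h p⟩
  obtain ⟨q, _, u, hu, h2⟩ := (fmem_oc.1 h).ex
  rwa [oc_inj h2]

end ord

/-- the natural numbers, one universe up -/
abbrev NN : Type 1 := ULift.{1} ℕ

/-- the order of the natural numbers -/
def nlt (a b : NN) : Prop := a.down < b.down

instance : IsWellOrder NN nlt :=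
  RelEmbedding.isWellOrder (s := ((· < ·) : ℕ → ℕ → Prop))
    ⟨⟨ULift.down, fun _ _ h => ULift.ext _ _ h⟩, Iff.rfl⟩

variable {M : Type} {E : M → M → Prop}

lemma Sound.ext (hE : Sound E) (a b : M) (h : ∀ x, E x a ↔ E x b) : a = b := by
  have := hE (.imp (.all (.iff (.mem 0 1) (.mem 0 2))) (.eq 0 1)) ?_ (cons a fun _ => b)
  · exact this (by simpa using h)
  · intro v q _ h
    simp only [frc_all, frc_iff, frc_mem, cons_zero, cons_one, cons_two] at h
    exact feq_ext h

lemma Sound.found (hE : Sound E) (a : M) (h : ∃ x, E x a) :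
    ∃ x, E x a ∧ ∀ y, E y x → ¬ E y a := by
  have := hE (.imp (.ex (.mem 0 1))
    (.ex (.and (.mem 0 1) (.all (.imp (.mem 0 1) (.not (.mem 0 2))))))) ?_ (fun _ => a)
  · simpa using this (by simpa using h)
  · intro v q _ h
    apply Frc.by_contra
    intro q' hq' hn
    have key : ∀ y : HN, ∀ r, r ≤ q' → ¬ FMem y.1 (v 0).1 r := by
      intro y
      induction y using HN.ind with
      | h y ih =>
        intro r hr hy
        refine hn r hr ?_
        rw [frc_ex]
        refine Dn.of_all fun r' hr' => ⟨y, ?_⟩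
        simp only [frc_and, frc_mem, cons_zero, cons_one, frc_all, frc_imp, frc_not, cons_two]
        refine ⟨hy.mono hr', fun z s hs hz t ht hza => ?_⟩
        obtain ⟨u, hu, i, _, h2⟩ := (hz.mono ht).ex
        exact ih i u (hu.trans (ht.trans (hs.trans (hr'.trans hr)))) ((hza.mono hu).left h2)
    obtain ⟨r, hr, y, hy⟩ := (frc_ex.1 h) q' hq'
    exact key y r hr hy

lemma Sound.pair (hE : Sound E) (a b : M) : ∃ c, ∀ x, E x c ↔ x = a ∨ x = b := by
  have := hE.compr (.or (.eq 0 1) (.eq 0 2)) ?_ (cons a fun _ => b)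
  · simpa using this
  · intro v
    refine ⟨ULift Bool, fun i => if i.down then v 0 else v 1, fun w p h => ?_⟩
    obtain ⟨q, hq, h | h⟩ := (frc_or.1 h).ex
    · exact ⟨q, hq, ⟨true⟩, h⟩
    · exact ⟨q, hq, ⟨false⟩, h⟩

lemma Sound.union (hE : Sound E) (a : M) : ∃ u, ∀ x, E x u ↔ ∃ y, E y a ∧ E x y := by
  have := hE.compr (.ex (.and (.mem 0 2) (.mem 1 0))) ?_ (fun _ => a)
  · simpa using this
  · intro v
    refine ⟨Σ i : (v 0).1.I, ((v 0).ch i).1.I, fun i => ((v 0).ch i.1).ch i.2, fun w p h => ?_⟩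
    obtain ⟨q, hq, y, h⟩ := (frc_ex.1 h).ex
    simp only [frc_and, frc_mem, cons_zero, cons_one, cons_two] at h
    obtain ⟨r, hr, i, _, h1⟩ := h.1.ex
    obtain ⟨s, hs, j, _, h2⟩ := ((h.2.mono hr).right h1).ex
    exact ⟨s, hs.trans (hr.trans hq), ⟨i, j⟩, h2⟩

lemma Sound.power (hE : Sound E) (a : M) : ∃ u, ∀ x, E x u ↔ ∀ y, E y x → E y a := by
  have := hE.compr (.all (.imp (.mem 0 1) (.mem 0 2))) ?_ (fun _ => a)
  · simpa using this
  · intro v
    refine ⟨{S : (v 0).1.I → Cond → Prop // HS (cname (v 0).ch S)},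
      fun S => ⟨_, S.2⟩, fun w p h => ?_⟩
    simp only [frc_all, frc_imp, frc_mem, cons_zero, cons_one, cons_two] at h
    have hc : Covered (.and (.mem 0 1) (.mem 0 2)) (cons w v) (v 0).ch :=
      covered_of_mem (v 0) fun z q hz => (frc_and.1 hz).2
    refine ⟨p, le_rfl, ⟨_, compr_hs hc⟩, feq_ext fun z q hq => ?_⟩
    refine Iff.trans ?_ (compr_mem hc z q).symm
    simp only [frc_and, frc_mem, cons_zero, cons_one, cons_two]
    exact ⟨fun h1 => ⟨h1, h z q hq h1⟩, fun h1 => h1.1⟩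

lemma Sound.sepF (hE : Sound E) (φ : Fml) (w : ℕ → M) (a : M) :
    ∃ b, ∀ x, E x b ↔ E x a ∧ Sat E φ (cons x w) := by
  have e' : ∀ (x b : M) (v : ℕ → M),
      cons x (cons b v) ∘ cons 0 (fun n => n + 2) = cons x v := by
    intro x b v; funext n; cases n <;> rfl
  have := hE.compr (.and (.mem 0 1) (φ.ren (cons 0 fun n => n + 2))) ?_ (cons a w)
  · simpa [sat_ren, e'] using this
  · intro v
    exact ⟨_, _, covered_of_mem (v 0) fun z q hz => (frc_and.1 hz).1⟩

lemma Sound.replF (hE : Sound E) (φ : Fml) (w : ℕ → M) (a : M)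
    (h : ∀ x, E x a → ∀ y y', Sat E φ (cons y (cons x w)) → Sat E φ (cons y' (cons x w)) → y = y') :
    ∃ b, ∀ y, E y b ↔ ∃ x, E x a ∧ Sat E φ (cons y (cons x w)) := by
  have e1 : ∀ {α : Type} (x y b : α) (v : ℕ → α),
      cons x (cons y (cons b v)) ∘ cons 1 (cons 0 fun n => n + 3) = cons y (cons x v) := by
    intro α x y b v; funext n; rcases n with _ | _ | n <;> rfl
  have e2 : ∀ {α : Type} (z x y b : α) (v : ℕ → α),
      cons z (cons x (cons y (cons b v))) ∘ cons 0 (cons 1 fun n => n + 4) = cons z (cons x v) := by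
    intro α z x y b v; funext n; rcases n with _ | _ | n <;> rfl
  have e1' : ∀ {α : Type 2} (x y : α) (v : ℕ → α),
      cons x (cons y v) ∘ cons 1 (cons 0 fun n => n + 3) = cons y (cons x fun n => v (n + 1)) := by
    intro α x y v; funext n; rcases n with _ | _ | n <;> rfl
  have e2' : ∀ {α : Type 2} (z x y : α) (v : ℕ → α),
      cons z (cons x (cons y v)) ∘ cons 0 (cons 1 fun n => n + 4) =
        cons z (cons x fun n => v (n + 1)) := by
    intro α z x y v; funext n; rcases n with _ | _ | n <;> rfl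
  have := hE.compr (.ex (.and (.mem 0 2) (.and (φ.ren (cons 1 (cons 0 fun n => n + 3)))
    (.all (.imp (φ.ren (cons 0 (cons 1 fun n => n + 4))) (.eq 0 2)))))) ?_ (cons a w)
  · obtain ⟨b, hb⟩ := this
    refine ⟨b, fun y => (hb y).trans ?_⟩
    simp only [sat_ex, sat_and, sat_mem, sat_ren, e1, e2, sat_all, sat_imp, sat_eq, cons_zero,
      cons_two, cons_one]
    exact ⟨fun ⟨x, h1, h2, _⟩ => ⟨x, h1, h2⟩,
      fun ⟨x, h1, h2⟩ => ⟨x, h1, h2, fun z hz => h x h1 _ _ hz h2⟩⟩
  · intro v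
    have hw : ∀ iq : (v 0).1.I × Cond, ∃ y : HN,
        (∃ z, Frc φ (cons z (cons ((v 0).ch iq.1) fun n => v (n + 1))) iq.2) →
          Frc φ (cons y (cons ((v 0).ch iq.1) fun n => v (n + 1))) iq.2 := by
      intro iq
      by_cases h : ∃ z, Frc φ (cons z (cons ((v 0).ch iq.1) fun n => v (n + 1))) iq.2
      · obtain ⟨z, hz⟩ := h
        exact ⟨z, fun _ => hz⟩
      · exact ⟨emp, fun h' => absurd h' h⟩
    choose A hA using hw
    refine ⟨_, A, fun y p h => ?_⟩
    obtain ⟨q, hq, x, h⟩ := (frc_ex.1 h).ex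
    simp only [frc_and, frc_mem, frc_ren, e1', e2', frc_all, frc_imp, frc_eq, cons_zero,
      cons_two, cons_one] at h
    obtain ⟨r, hr, i, _, h1⟩ := h.1.ex
    have hx : ∀ z : HN, Frc φ (cons z (cons x fun n => v (n + 1))) r ↔
        Frc φ (cons z (cons ((v 0).ch i) fun n => v (n + 1))) r := by
      intro z
      refine frc_congr fun k _ => ?_
      rcases k with _ | _ | k
      · exact FEq.refl _ _
      · exact h1
      · exact FEq.refl _ _
    have h2 := hA (i, r) ⟨y, (hx y).1 (h.2.1.mono hr)⟩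
    exact ⟨r, hr.trans hq, (i, r), (h.2.2 _ r hr ((hx _).2 h2)).symm⟩

lemma Sound.inf (hE : Sound E) (a : M) : ∃ w, (∃ e, E e w ∧ ∀ x, ¬ E x e) ∧
    ∀ x, E x w → ∃ s, E s w ∧ ∀ y, E y s ↔ E y x ∨ y = x := by
  have := hE (.ex (.and (.ex (.and (.mem 0 1) (.all (.not (.mem 0 1)))))
    (.all (.imp (.mem 0 1) (.ex (.and (.mem 0 2)
      (.all (.iff (.mem 0 1) (.or (.mem 0 2) (.eq 0 2)))))))))) ?_ (fun _ => a)
  · simpa using this
  · intro v
    simp only [frc_ex, frc_and, frc_mem, frc_all, frc_imp, frc_not, frc_iff, frc_or, frc_eq,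
      cons_zero, cons_one, cons_two]
    refine Dn.of_all fun q _ => ⟨ocAll nlt, Dn.of_all fun r _ => ⟨oc nlt ⟨0⟩, oc_mem_all _ _, ?_⟩,
      fun x r _ hx => ?_⟩
    · intro x s _ hx
      obtain ⟨_, _, u, hu, _⟩ := (fmem_oc.1 hx).ex
      exact Nat.not_lt_zero _ hu
    · refine (fmem_ocAll.1 hx).imp fun s _ ⟨n, hn⟩ =>
        ⟨s, le_rfl, oc nlt ⟨n.down + 1⟩, oc_mem_all _ _, fun y t ht => ?_⟩
      rw [fmem_oc]
      constructor
      · intro h
        refine h.imp fun u hu ⟨m, hm, h1⟩ => ⟨u, le_rfl, ?_⟩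
        rcases Nat.lt_succ_iff_lt_or_eq.1 hm with h2 | h2
        · exact Or.inl (((oc_mem_oc (r := nlt) h2 u).left h1.symm).right
            (hn.symm.mono (hu.trans ht)))
        · have : m = n := ULift.ext _ _ h2
          exact Or.inr (h1.trans (this ▸ hn.symm.mono (hu.trans ht)))
      · intro h
        refine h.imp fun u hu h1 => ?_
        rcases h1 with h1 | h1
        · obtain ⟨u', hu', m, hm, h2⟩ := (fmem_oc.1 (h1.right (hn.mono (hu.trans ht)))).ex
          exact ⟨u', hu', m, Nat.lt_succ_of_lt hm, h2⟩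
        · exact ⟨u, le_rfl, n, Nat.lt_succ_self _, h1.trans (hn.mono (hu.trans ht))⟩

/-- translation of Mathlib formulas -/
lemma exists_fml {β : Type} {n : ℕ} (φ : setLang.BoundedFormula β n) (ρ : β ⊕ Fin n → ℕ) :
    ∃ ψ : Fml, ∀ w : ℕ → M, Sat E ψ w ↔
      @Language.BoundedFormula.Realize setLang M (memStr E) β n φ (fun b => w (ρ (.inl b)))
        (fun i => w (ρ (.inr i))) := by
  let := memStr E
  have ht : ∀ {γ : Type} (t : setLang.Term γ), ∃ x : γ, ∀ u : γ → M, t.realize u = u x := by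
    intro γ t
    cases t with
    | var x => exact ⟨x, fun _ => rfl⟩
    | func f _ => exact Empty.elim f
  have hs : ∀ {n : ℕ} (ρ : β ⊕ Fin n → ℕ) (w : ℕ → M) (x : β ⊕ Fin n),
      Sum.elim (fun b => w (ρ (.inl b))) (fun i => w (ρ (.inr i))) x = w (ρ x) := by
    intro n ρ w x; cases x <;> rfl
  induction φ with
  | falsum => exact ⟨.bot, fun _ => Iff.rfl⟩
  | equal t₁ t₂ =>
    obtain ⟨x, hx⟩ := ht t₁
    obtain ⟨y, hy⟩ := ht t₂
    refine ⟨.eq (ρ x) (ρ y), fun w => ?_⟩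
    simp only [Language.BoundedFormula.Realize, hx, hy, hs, sat_eq]
  | rel R ts =>
    cases R
    obtain ⟨x, hx⟩ := ht (ts 0)
    obtain ⟨y, hy⟩ := ht (ts 1)
    refine ⟨.mem (ρ x) (ρ y), fun w => ?_⟩
    simp only [Language.BoundedFormula.Realize, sat_mem]
    change _ ↔ E ((ts 0).realize _) ((ts 1).realize _)
    rw [hx, hy, hs, hs]
  | imp a b iha ihb =>
    obtain ⟨x, hx⟩ := iha ρ
    obtain ⟨y, hy⟩ := ihb ρ
    exact ⟨.imp x y, fun w => imp_congr (hx w) (hy w)⟩
  | @all n a iha =>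
    obtain ⟨x, hx⟩ := iha (Sum.elim (fun b => ρ (.inl b) + 1)
      (Fin.snoc (α := fun _ => ℕ) (fun i => ρ (.inr i) + 1) 0))
    refine ⟨.all x, fun w => forall_congr' fun y => (hx _).trans ?_⟩
    have : (fun i : Fin (n + 1) => cons y w
        (Fin.snoc (α := fun _ => ℕ) (fun i => ρ (.inr i) + 1) 0 i)) =
        Fin.snoc (fun i => w (ρ (.inr i))) y := by
      funext i
      refine Fin.lastCases ?_ (fun j => ?_) i <;> simp
    simp only [Sum.elim_inl, Sum.elim_inr, cons_succ, this]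

theorem Sound.isZF (hE : Sound E) [Countable M] [Nonempty M] : IsZF E := by
  let := memStr E
  obtain ⟨w, hw⟩ := exists_surjective_nat M
  choose ix hix using hw
  refine ⟨hE.ext, hE.found, hE.pair, hE.union, hE.power, hE.inf (w 0), fun C hC a => ?_,
    fun C hC a h => ?_⟩
  · obtain ⟨φ, hφ⟩ := Set.definable_iff_exists_formula_sum.1 hC
    obtain ⟨ψ, hψ⟩ := exists_fml (E := E) φ
      (Sum.elim (Sum.elim (fun m => ix m.1 + 1) fun _ => 0) fun i => i.elim0)
    have key : ∀ x, x ∈ C ↔ Sat E ψ (cons x w) := by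
      intro x
      have := Set.ext_iff.1 hφ fun _ => x
      simp only [Set.mem_ofPred_eq] at this
      rw [this, hψ, Language.Formula.Realize]
      refine iff_of_eq (congrArg₂ (Language.BoundedFormula.Realize φ) ?_ (Subsingleton.elim _ _))
      funext b
      cases b <;> simp [hix]
    simp only [key]
    exact hE.sepF ψ w a
  · obtain ⟨φ, hφ⟩ := Set.definable_iff_exists_formula_sum.1 hC
    obtain ⟨ψ, hψ⟩ := exists_fml (E := E) φ
      (Sum.elim (Sum.elim (fun m => ix m.1 + 2) ![1, 0]) fun i => i.elim0)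
    have key : ∀ x y, (x, y) ∈ C ↔ Sat E ψ (cons y (cons x w)) := by
      intro x y
      have := Set.ext_iff.1 hφ ![x, y]
      simp only [Set.mem_ofPred_eq, Matrix.cons_val_zero, Matrix.cons_val_one] at this
      rw [this, hψ, Language.Formula.Realize]
      refine iff_of_eq (congrArg₂ (Language.BoundedFormula.Realize φ) ?_ (Subsingleton.elim _ _))
      funext b
      rcases b with b | b
      · simp [hix]
      · fin_cases b <;> simp
    simp only [key] at h ⊢
    exact hE.replF ψ w a h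

end Pool.Agent.MP_637f9c_lc.H1
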